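import Mathlib

/-!
Weighted absolutely summable twisted convolution algebras over a monoid with finite factorisations.
-/

namespace K1H25.HF

open Finset hiding mem_antidiagonal antidiagonal
open HasAntidiagonal

/-- A monoid with finite factorisations, a unimodular normalised cocycle and a family of submultiplicative
weights. -/
structure WData (Γ : Type) [AddMonoid Γ] [HasAntidiagonal Γ] where
  I : Type
  β : Γ → Γ → ℂ
  wt : I → Γ → ℝ
  norm_β : ∀ a b, ‖β a b‖ = 1
  β_zero_left : ∀ a, β 0 a = 1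
  β_zero_right : ∀ a, β a 0 = 1
  β_assoc : ∀ a b c, β a b * β (a + b) c = β b c * β a (b + c)
  wt_pos : ∀ i a, 0 < wt i a
  wt_zero : ∀ i, wt i 0 = 1
  wt_add : ∀ i a b, wt i (a + b) ≤ wt i a * wt i b

variable {Γ : Type} [AddMonoid Γ] [HasAntidiagonal Γ]

/-- The functions on `Γ` which are absolutely summable against every weight. -/
def WAlg (D : WData Γ) : Type := {c : Γ → ℂ // ∀ i, Summable fun g => ‖c g‖ * D.wt i g}

namespace WAlg

variable {D : WData Γ}

/-- The coefficients. -/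
def cf (a : WAlg D) : Γ → ℂ := a.1

@[ext] theorem ext {a b : WAlg D} (h : ∀ g, a.cf g = b.cf g) : a = b := Subtype.ext (funext h)

theorem summ (a : WAlg D) (i : D.I) : Summable fun g => ‖a.cf g‖ * D.wt i g := a.2 i

/-- The weighted l1 norm. -/
noncomputable def nrm (i : D.I) (a : WAlg D) : ℝ := ∑' g, ‖a.cf g‖ * D.wt i g

theorem nrm_nonneg (i : D.I) (a : WAlg D) : 0 ≤ nrm i a :=
  tsum_nonneg fun g => mul_nonneg (norm_nonneg _) (D.wt_pos i g).le

theorem le_nrm (i : D.I) (a : WAlg D) (g : Γ) : ‖a.cf g‖ * D.wt i g ≤ nrm i a :=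
  (a.summ i).le_tsum g fun g _ => mul_nonneg (norm_nonneg _) (D.wt_pos i g).le

instance : Zero (WAlg D) := ⟨⟨fun _ => 0, fun i => by simp⟩⟩
instance : Add (WAlg D) := ⟨fun a b => ⟨fun g => a.cf g + b.cf g, fun i => by
  refine Summable.of_nonneg_of_le (fun g => mul_nonneg (norm_nonneg _) (D.wt_pos i g).le) (fun g => ?_)
    ((a.summ i).add (b.summ i))
  rw [← add_mul]
  exact mul_le_mul_of_nonneg_right (norm_add_le _ _) (D.wt_pos i g).le⟩⟩
instance : Neg (WAlg D) := ⟨fun a => ⟨fun g => - a.cf g, fun i => by simpa using a.summ i⟩⟩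
instance : Sub (WAlg D) := ⟨fun a b => ⟨fun g => a.cf g - b.cf g, fun i => by
  refine Summable.of_nonneg_of_le (fun g => mul_nonneg (norm_nonneg _) (D.wt_pos i g).le) (fun g => ?_)
    ((a.summ i).add (b.summ i))
  rw [← add_mul]
  exact mul_le_mul_of_nonneg_right (norm_sub_le _ _) (D.wt_pos i g).le⟩⟩
instance : SMul ℂ (WAlg D) := ⟨fun z a => ⟨fun g => z * a.cf g, fun i => by
  simpa [mul_assoc] using (a.summ i).mul_left ‖z‖⟩⟩
instance : SMul ℕ (WAlg D) := ⟨fun z a => ⟨fun g => (z : ℂ) * a.cf g, fun i => by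
  simpa [mul_assoc] using (a.summ i).mul_left ‖(z : ℂ)‖⟩⟩
instance : SMul ℤ (WAlg D) := ⟨fun z a => ⟨fun g => (z : ℂ) * a.cf g, fun i => by
  simpa [mul_assoc] using (a.summ i).mul_left ‖(z : ℂ)‖⟩⟩

@[simp] theorem cf_zero (g : Γ) : (0 : WAlg D).cf g = 0 := rfl
@[simp] theorem cf_add (a b : WAlg D) (g : Γ) : (a + b).cf g = a.cf g + b.cf g := rfl
@[simp] theorem cf_neg (a : WAlg D) (g : Γ) : (-a).cf g = - a.cf g := rfl
@[simp] theorem cf_sub (a b : WAlg D) (g : Γ) : (a - b).cf g = a.cf g - b.cf g := rfl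
@[simp] theorem cf_smul (z : ℂ) (a : WAlg D) (g : Γ) : (z • a).cf g = z * a.cf g := rfl
theorem cf_nsmul (z : ℕ) (a : WAlg D) (g : Γ) : (z • a).cf g = (z : ℂ) * a.cf g := rfl
theorem cf_zsmul (z : ℤ) (a : WAlg D) (g : Γ) : (z • a).cf g = (z : ℂ) * a.cf g := rfl

theorem cf_injective : Function.Injective (cf : WAlg D → Γ → ℂ) := fun _ _ h => Subtype.ext h

noncomputable instance : AddCommGroup (WAlg D) :=
  cf_injective.addCommGroup _ rfl (fun _ _ => rfl) (fun _ => rfl) (fun _ _ => rfl)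
    (fun a n => by funext g; rw [cf_nsmul]; simp [nsmul_eq_mul])
    (fun a n => by funext g; rw [cf_zsmul]; simp [zsmul_eq_mul])

noncomputable instance : Module ℂ (WAlg D) :=
  cf_injective.module ℂ ⟨⟨cf, rfl⟩, fun _ _ => rfl⟩ (fun _ _ => rfl)

/-- twisted convolution of functions -/
noncomputable def conv (D : WData Γ) (a b : Γ → ℂ) (g : Γ) : ℂ :=
  ∑ p ∈ antidiagonal g, D.β p.1 p.2 * a p.1 * b p.2

theorem sum_pair (i : D.I) (a b : WAlg D) :
    Summable fun x : Γ × Γ => (‖a.cf x.1‖ * D.wt i x.1) * (‖b.cf x.2‖ * D.wt i x.2) :=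
  (a.summ i).mul_of_nonneg (b.summ i) (fun g => mul_nonneg (norm_nonneg _) (D.wt_pos i g).le)
    (fun g => mul_nonneg (norm_nonneg _) (D.wt_pos i g).le)

theorem sum_sigma (i : D.I) (a b : WAlg D) :
    Summable fun g : Γ => ∑ p ∈ antidiagonal g, (‖a.cf p.1‖ * D.wt i p.1) * (‖b.cf p.2‖ * D.wt i p.2) := by
  have h := (HasAntidiagonal.sigmaAntidiagonalEquivProd (A := Γ)).summable_iff.2 (sum_pair i a b)
  have h2 := h.sigma' (fun g => (hasSum_fintype _).summable)
  refine h2.congr fun g => ?_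
  rw [tsum_fintype]
  exact (Finset.sum_coe_sort (antidiagonal g)
    (fun p : Γ × Γ => (‖a.cf p.1‖ * D.wt i p.1) * (‖b.cf p.2‖ * D.wt i p.2)))

theorem tsum_sigma (i : D.I) (a b : WAlg D) :
    ∑' g : Γ, ∑ p ∈ antidiagonal g, (‖a.cf p.1‖ * D.wt i p.1) * (‖b.cf p.2‖ * D.wt i p.2)
      = nrm i a * nrm i b := by
  have h := (HasAntidiagonal.sigmaAntidiagonalEquivProd (A := Γ)).summable_iff.2 (sum_pair i a b)
  unfold nrm
  rw [(a.summ i).tsum_mul_tsum (b.summ i) (sum_pair i a b),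
    ← HasAntidiagonal.sigmaAntidiagonalEquivProd.tsum_eq (_ : Γ × Γ → ℝ)]
  have h3 := h.tsum_sigma' (fun g => (hasSum_fintype _).summable)
  refine Eq.trans ?_ h3.symm
  refine tsum_congr fun g => ?_
  rw [tsum_fintype]
  exact (Finset.sum_coe_sort (antidiagonal g)
    (fun p : Γ × Γ => (‖a.cf p.1‖ * D.wt i p.1) * (‖b.cf p.2‖ * D.wt i p.2))).symm

theorem conv_le (i : D.I) (a b : WAlg D) (g : Γ) :
    ‖conv D a.cf b.cf g‖ * D.wt i g
      ≤ ∑ p ∈ antidiagonal g, (‖a.cf p.1‖ * D.wt i p.1) * (‖b.cf p.2‖ * D.wt i p.2) := by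
  calc ‖conv D a.cf b.cf g‖ * D.wt i g
      ≤ (∑ p ∈ antidiagonal g, ‖D.β p.1 p.2 * a.cf p.1 * b.cf p.2‖) * D.wt i g :=
        mul_le_mul_of_nonneg_right (norm_sum_le _ _) (D.wt_pos i g).le
    _ = ∑ p ∈ antidiagonal g, ‖a.cf p.1‖ * ‖b.cf p.2‖ * D.wt i g := by
        rw [Finset.sum_mul]
        refine Finset.sum_congr rfl fun p _ => ?_
        rw [norm_mul, norm_mul, D.norm_β, one_mul]
    _ ≤ _ := by
        refine Finset.sum_le_sum fun p hp => ?_
        have h1 : p.1 + p.2 = g := mem_antidiagonal.1 hp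
        have h2 := D.wt_add i p.1 p.2
        rw [h1] at h2
        calc ‖a.cf p.1‖ * ‖b.cf p.2‖ * D.wt i g ≤ ‖a.cf p.1‖ * ‖b.cf p.2‖ * (D.wt i p.1 * D.wt i p.2) := by
              gcongr
          _ = _ := by ring

noncomputable instance : Mul (WAlg D) := ⟨fun a b => ⟨conv D a.cf b.cf, fun i =>
  Summable.of_nonneg_of_le (fun g => mul_nonneg (norm_nonneg _) (D.wt_pos i g).le) (conv_le i a b)
    (sum_sigma i a b)⟩⟩

theorem cf_mul (a b : WAlg D) (g : Γ) :
    (a * b).cf g = ∑ p ∈ antidiagonal g, D.β p.1 p.2 * a.cf p.1 * b.cf p.2 := rfl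

theorem nrm_mul (i : D.I) (a b : WAlg D) : nrm i (a * b) ≤ nrm i a * nrm i b := by
  rw [← tsum_sigma]
  exact Summable.tsum_le_tsum (conv_le i a b) ((a * b).summ i) (sum_sigma i a b)

open Classical in
/-- The coefficient function of a monomial. -/
noncomputable def mono (D : WData Γ) (g : Γ) : WAlg D :=
  ⟨fun h => if h = g then 1 else 0, fun i => by
    refine summable_of_finite_support ((Set.finite_singleton g).subset ?_)
    intro h hh
    by_contra h1
    have : h ≠ g := h1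
    exact hh (by simp [this])⟩

open Classical in
theorem cf_mono (g h : Γ) : (mono D g).cf h = if h = g then 1 else 0 := rfl

theorem cf_mono_self (g : Γ) : (mono D g).cf g = 1 := by simp [cf_mono]

theorem cf_mono_ne {g h : Γ} (hh : h ≠ g) : (mono D g).cf h = 0 := by simp [cf_mono, hh]

noncomputable instance : One (WAlg D) := ⟨mono D 0⟩

theorem one_def : (1 : WAlg D) = mono D 0 := rfl

theorem conv_assoc (a b c : Γ → ℂ) : conv D (conv D a b) c = conv D a (conv D b c) := by
  funext g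
  unfold conv
  have e1 : ∀ p ∈ antidiagonal g, D.β p.1 p.2 * (∑ s ∈ antidiagonal p.1, D.β s.1 s.2 * a s.1 * b s.2) * c p.2
      = ∑ s ∈ antidiagonal p.1, (D.β s.1 s.2 * D.β p.1 p.2) * (a s.1 * b s.2 * c p.2) := by
    intro p _
    rw [Finset.mul_sum, Finset.sum_mul]
    exact Finset.sum_congr rfl fun s _ => by ring
  have e2 : ∀ p ∈ antidiagonal g, D.β p.1 p.2 * a p.1 * (∑ s ∈ antidiagonal p.2, D.β s.1 s.2 * b s.1 * c s.2)
      = ∑ s ∈ antidiagonal p.2, (D.β s.1 s.2 * D.β p.1 p.2) * (a p.1 * b s.1 * c s.2) := by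
    intro p _
    rw [Finset.mul_sum]
    exact Finset.sum_congr rfl fun s _ => by ring
  rw [Finset.sum_congr rfl e1, Finset.sum_congr rfl e2]
  rw [Finset.sum_sigma' (antidiagonal g) (fun p => antidiagonal p.1),
    Finset.sum_sigma' (antidiagonal g) (fun p => antidiagonal p.2)]
  refine Finset.sum_bij' (fun x _ => ⟨(x.2.1, x.2.2 + x.1.2), (x.2.2, x.1.2)⟩)
    (fun x _ => ⟨(x.1.1 + x.2.1, x.2.2), (x.1.1, x.2.1)⟩) ?_ ?_ ?_ ?_ ?_
  · rintro ⟨⟨p1, p2⟩, ⟨s1, s2⟩⟩ h
    simp only [Finset.mem_sigma, mem_antidiagonal] at h ⊢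
    refine ⟨?_, trivial⟩
    rw [← add_assoc, h.2, h.1]
  · rintro ⟨⟨p1, p2⟩, ⟨s1, s2⟩⟩ h
    simp only [Finset.mem_sigma, mem_antidiagonal] at h ⊢
    refine ⟨?_, trivial⟩
    rw [add_assoc, h.2, h.1]
  · rintro ⟨⟨p1, p2⟩, ⟨s1, s2⟩⟩ h
    simp only [Finset.mem_sigma, mem_antidiagonal] at h ⊢
    obtain ⟨h1, h2⟩ := h
    subst h2
    rfl
  · rintro ⟨⟨p1, p2⟩, ⟨s1, s2⟩⟩ h
    simp only [Finset.mem_sigma, mem_antidiagonal] at h ⊢
    obtain ⟨h1, h2⟩ := h
    subst h2
    rfl
  · rintro ⟨⟨p1, p2⟩, ⟨s1, s2⟩⟩ h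
    simp only [Finset.mem_sigma, mem_antidiagonal] at h ⊢
    obtain ⟨h1, h2⟩ := h
    subst h2
    rw [D.β_assoc]

theorem conv_add_left (a a' b : Γ → ℂ) (g : Γ) :
    conv D (fun h => a h + a' h) b g = conv D a b g + conv D a' b g := by
  unfold conv
  rw [← Finset.sum_add_distrib]
  exact Finset.sum_congr rfl fun p _ => by ring

theorem conv_add_right (a b b' : Γ → ℂ) (g : Γ) :
    conv D a (fun h => b h + b' h) g = conv D a b g + conv D a b' g := by
  unfold conv
  rw [← Finset.sum_add_distrib]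
  exact Finset.sum_congr rfl fun p _ => by ring

theorem one_conv (a : WAlg D) : (1 : WAlg D) * a = a := by
  ext g
  rw [cf_mul, Finset.sum_eq_single (0, g)]
  · rw [D.β_zero_left, one_def, cf_mono_self]; ring
  · rintro ⟨p1, p2⟩ hp hne
    rw [mem_antidiagonal] at hp
    have : p1 ≠ 0 := by
      rintro rfl
      apply hne
      simp only [zero_add] at hp
      rw [hp]
    simp only
    rw [one_def, cf_mono_ne this]; ring
  · intro h
    exact absurd (mem_antidiagonal.2 (zero_add g)) h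

theorem conv_one (a : WAlg D) : a * (1 : WAlg D) = a := by
  ext g
  rw [cf_mul, Finset.sum_eq_single (g, 0)]
  · rw [D.β_zero_right, one_def, cf_mono_self]; ring
  · rintro ⟨p1, p2⟩ hp hne
    rw [mem_antidiagonal] at hp
    have : p2 ≠ 0 := by
      rintro rfl
      apply hne
      simp only [add_zero] at hp
      rw [hp]
    simp only
    rw [one_def, cf_mono_ne this]; ring
  · intro h
    exact absurd (mem_antidiagonal.2 (add_zero g)) h

noncomputable instance : Ring (WAlg D) :=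
  { (inferInstance : AddCommGroup (WAlg D)) with
    mul := (· * ·)
    one := 1
    left_distrib := fun a b c => cf_injective (funext fun g => conv_add_right _ _ _ g)
    right_distrib := fun a b c => cf_injective (funext fun g => conv_add_left _ _ _ g)
    zero_mul := fun a => by ext g; rw [cf_mul]; simp
    mul_zero := fun a => by ext g; rw [cf_mul]; simp
    mul_assoc := fun a b c => cf_injective (conv_assoc _ _ _)
    one_mul := one_conv
    mul_one := conv_one }

noncomputable instance : Algebra ℂ (WAlg D) :=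
  Algebra.ofModule
    (fun z a b => by
      ext g
      rw [cf_mul, cf_smul, cf_mul, Finset.mul_sum]
      exact Finset.sum_congr rfl fun p _ => by rw [cf_smul]; ring)
    (fun z a b => by
      ext g
      rw [cf_mul, cf_smul, cf_mul, Finset.mul_sum]
      exact Finset.sum_congr rfl fun p _ => by rw [cf_smul]; ring)

theorem nrm_add (i : D.I) (a b : WAlg D) : nrm i (a + b) ≤ nrm i a + nrm i b := by
  unfold nrm
  rw [← (a.summ i).tsum_add (b.summ i)]
  refine Summable.tsum_le_tsum (fun g => ?_) ((a + b).summ i) ((a.summ i).add (b.summ i))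
  rw [← add_mul]
  exact mul_le_mul_of_nonneg_right (norm_add_le _ _) (D.wt_pos i g).le

theorem nrm_smul (i : D.I) (z : ℂ) (a : WAlg D) : nrm i (z • a) = ‖z‖ * nrm i a := by
  unfold nrm
  rw [← tsum_mul_left]
  exact tsum_congr fun g => by rw [cf_smul, norm_mul]; ring

/-- The norm as a seminorm. -/
noncomputable def nrmS (i : D.I) : Seminorm ℂ (WAlg D) := Seminorm.of (nrm i) (nrm_add i) (nrm_smul i)

/-- The topology defined by all the norms. -/
noncomputable instance : TopologicalSpace (WAlg D) :=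
  ⨅ i : D.I, (nrmS (D := D) i).toSeminormedAddCommGroup.toUniformSpace.toTopologicalSpace

theorem nrm_zero (i : D.I) : nrm i (0 : WAlg D) = 0 := by unfold nrm; simp

theorem nrm_neg (i : D.I) (a : WAlg D) : nrm i (-a) = nrm i a := by
  unfold nrm; exact tsum_congr fun g => by rw [cf_neg, norm_neg]

theorem nrm_sub (i : D.I) (a b : WAlg D) : nrm i (a - b) ≤ nrm i a + nrm i b := by
  rw [sub_eq_add_neg]
  exact (nrm_add i _ _).trans (by rw [nrm_neg])

theorem nrm_mono (i : D.I) (g : Γ) : nrm i (mono D g) = D.wt i g := by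
  unfold nrm
  rw [tsum_eq_single g]
  · rw [cf_mono_self]; simp
  · intro h hh
    rw [cf_mono_ne hh]; simp

theorem nrm_one (i : D.I) : nrm i (1 : WAlg D) = 1 := by rw [one_def, nrm_mono, D.wt_zero]

theorem mono_mul (g h : Γ) : mono D g * mono D h = D.β g h • mono D (g + h) := by
  ext k
  rw [cf_mul, cf_smul]
  by_cases hk : k = g + h
  · subst hk
    rw [cf_mono_self, Finset.sum_eq_single (g, h)]
    · rw [cf_mono_self, cf_mono_self]; ring
    · rintro ⟨p1, p2⟩ hp hne
      by_cases h1 : p1 = g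
      · have h2 : p2 ≠ h := fun h2 => hne (by rw [h1, h2])
        simp only
        rw [cf_mono_ne h2]; ring
      · simp only
        rw [cf_mono_ne h1]; ring
    · intro hh
      exact absurd (mem_antidiagonal.2 rfl) hh
  · rw [cf_mono_ne hk, mul_zero]
    refine Finset.sum_eq_zero ?_
    rintro ⟨p1, p2⟩ hp
    rw [mem_antidiagonal] at hp
    by_cases h1 : p1 = g
    · have h2 : p2 ≠ h := fun h2 => hk (by rw [← hp, h1, h2])
      simp only
      rw [cf_mono_ne h2]; ring
    · simp only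
      rw [cf_mono_ne h1]; ring

end WAlg

end K1H25.HF
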