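import Pool.Agent.K1H25.HF.Alg

/-!
The free Frechet algebra `F(C^N)` and the quantum ball algebra `O_q(B^n_r)`, `|q| = 1`.
-/

namespace K1H25.HF

open Finset hiding mem_antidiagonal antidiagonal
open HasAntidiagonal

/-- the free monoid on `N` letters, written additively (words under concatenation) -/
abbrev Words (N : ℕ) : Type := FreeAddMonoid (Fin N)

/-- length of a word -/
def wlen {N : ℕ} (w : Words N) : ℕ := (FreeAddMonoid.toList w).length

theorem wlen_add {N : ℕ} (u v : Words N) : wlen (u + v) = wlen u + wlen v := by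
  unfold wlen; rw [FreeAddMonoid.toList_add, List.length_append]

theorem wlen_zero {N : ℕ} : wlen (0 : Words N) = 0 := rfl

instance (N : ℕ) : DecidableEq (Words N) := inferInstanceAs (DecidableEq (List (Fin N)))

/-- The factorisations of a word. -/
instance (N : ℕ) : HasAntidiagonal (Words N) where
  antidiagonal w := ((Finset.range (wlen w + 1)).image
    fun i => (FreeAddMonoid.ofList ((FreeAddMonoid.toList w).take i),
      FreeAddMonoid.ofList ((FreeAddMonoid.toList w).drop i)))
  mem_antidiagonal := by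
    intro w p
    simp only [Finset.mem_image, Finset.mem_range]
    constructor
    · rintro ⟨i, _, rfl⟩
      apply FreeAddMonoid.toList.injective
      rw [FreeAddMonoid.toList_add]
      simp
    · rintro rfl
      refine ⟨wlen p.1, ?_, ?_⟩
      · rw [wlen_add]; omega
      · obtain ⟨a, b⟩ := p
        simp only
        rw [FreeAddMonoid.toList_add]
        unfold wlen
        rw [List.take_left, List.drop_left]
        simp

/-- The data of `F(C^N)`: words, trivial cocycle, weights `R^{|w|}`, `R > 0`. -/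
noncomputable def freeData (N : ℕ) : WData (Words N) where
  I := {R : ℝ // 0 < R}
  β _ _ := 1
  wt R w := R.1 ^ wlen w
  norm_β _ _ := by simp
  β_zero_left _ := rfl
  β_zero_right _ := rfl
  β_assoc _ _ _ := by simp
  wt_pos R w := pow_pos R.2 _
  wt_zero R := by rw [wlen_zero, pow_zero]
  wt_add R u v := by rw [wlen_add, pow_add]

/-- `F(C^N)`: the noncommutative power series `∑ c_w w` with `∑ |c_w| R^{|w|} < ∞` for every `R`. -/
abbrev FreeF (N : ℕ) : Type := WAlg (freeData N)

/-- multi-indices -/
abbrev MI (n : ℕ) : Type := Fin n → ℕ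

/-- total degree -/
def tot {n : ℕ} (k : MI n) : ℕ := ∑ i, k i

theorem tot_add {n : ℕ} (k l : MI n) : tot (k + l) = tot k + tot l := by
  unfold tot; rw [← Finset.sum_add_distrib]; rfl

theorem tot_zero {n : ℕ} : tot (0 : MI n) = 0 := by unfold tot; simp

instance (n : ℕ) : HasAntidiagonal (MI n) where
  antidiagonal k := (Fintype.piFinset fun i => Finset.range (k i + 1)).image fun a => (a, k - a)
  mem_antidiagonal := by
    intro k p
    simp only [Finset.mem_image, Fintype.mem_piFinset, Finset.mem_range]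
    constructor
    · rintro ⟨a, ha, rfl⟩
      funext i
      have := ha i
      simp only [Pi.add_apply, Pi.sub_apply]
      omega
    · rintro rfl
      refine ⟨p.1, fun i => ?_, ?_⟩
      · simp only [Pi.add_apply]; omega
      · obtain ⟨a, b⟩ := p
        simp only [Prod.mk.injEq, true_and]
        funext i
        simp

/-- the weight `(k!/|k|!)^{1/2}` -/
noncomputable def wq {n : ℕ} (k : MI n) : ℝ :=
  Real.sqrt (((∏ i, (k i).factorial : ℕ) : ℝ) / ((tot k).factorial : ℝ))

/-- the exponent of `q⁻¹` in `x^k x^l = q^{-e(k,l)} x^{k+l}`: `e(k,l) = ∑_{i<j} l_i k_j` -/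
def qe {n : ℕ} (k l : MI n) : ℕ := ∑ j, ∑ i, if i < j then l i * k j else 0

theorem prod_choose_le {n : ℕ} (k l : MI n) (s : Finset (Fin n)) :
    ∏ i ∈ s, (k i + l i).choose (k i) ≤ ((∑ i ∈ s, k i) + ∑ i ∈ s, l i).choose (∑ i ∈ s, k i) := by
  classical
  induction s using Finset.induction_on with
  | empty => simp
  | insert a s ha ih =>
    rw [Finset.prod_insert ha, Finset.sum_insert ha, Finset.sum_insert ha]
    have e : k a + (∑ i ∈ s, k i) + (l a + ∑ i ∈ s, l i) = (k a + l a) + ((∑ i ∈ s, k i) + ∑ i ∈ s, l i) := by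
      ring
    rw [e, Nat.add_choose_eq (k a + l a)]
    refine le_trans (Nat.mul_le_mul_left _ ih) ?_
    exact Finset.single_le_sum
      (f := fun ij : ℕ × ℕ => (k a + l a).choose ij.1 * ((∑ i ∈ s, k i) + ∑ i ∈ s, l i).choose ij.2)
      (fun _ _ => Nat.zero_le _)
      (mem_antidiagonal.2 rfl : (k a, ∑ i ∈ s, k i) ∈ antidiagonal (k a + ∑ i ∈ s, k i))

theorem wq_pos {n : ℕ} (k : MI n) : 0 < wq k := by
  unfold wq
  apply Real.sqrt_pos.2
  apply div_pos
  · exact_mod_cast Finset.prod_pos fun i _ => Nat.factorial_pos _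
  · exact_mod_cast Nat.factorial_pos _

theorem wq_zero {n : ℕ} : wq (0 : MI n) = 1 := by
  unfold wq
  rw [tot_zero]
  simp

theorem wq_add {n : ℕ} (k l : MI n) : wq (k + l) ≤ wq k * wq l := by
  unfold wq
  rw [← Real.sqrt_mul (by positivity)]
  apply Real.sqrt_le_sqrt
  rw [div_mul_div_comm, div_le_div_iff₀ (by positivity) (by positivity), tot_add]
  have h := prod_choose_le k l Finset.univ
  have h1 : ∀ i, ((k + l) i).factorial = (k i + l i).choose (k i) * (k i).factorial * (l i).factorial := by
    intro i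
    have := Nat.choose_mul_factorial_mul_factorial (n := k i + l i) (k := k i) (Nat.le_add_right _ _)
    rw [Nat.add_sub_cancel_left] at this
    rw [Pi.add_apply]; exact this.symm
  have h2 : (tot k + tot l).factorial
      = (tot k + tot l).choose (tot k) * (tot k).factorial * (tot l).factorial := by
    have := Nat.choose_mul_factorial_mul_factorial (n := tot k + tot l) (k := tot k) (Nat.le_add_right _ _)
    rw [Nat.add_sub_cancel_left] at this
    exact this.symm
  have h3 : (∏ i, ((k + l) i).factorial)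
      = (∏ i, (k i + l i).choose (k i)) * (∏ i, (k i).factorial) * ∏ i, (l i).factorial := by
    rw [← Finset.prod_mul_distrib, ← Finset.prod_mul_distrib]
    exact Finset.prod_congr rfl fun i _ => h1 i
  have h4 : (∏ i, ((k + l) i).factorial) * ((tot k).factorial * (tot l).factorial)
      ≤ (∏ i, (k i).factorial) * (∏ i, (l i).factorial) * (tot k + tot l).factorial := by
    rw [h3, h2]
    calc (∏ i, (k i + l i).choose (k i)) * (∏ i, (k i).factorial) * (∏ i, (l i).factorial)
          * ((tot k).factorial * (tot l).factorial)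
        = (∏ i, (k i + l i).choose (k i)) * ((∏ i, (k i).factorial) * (∏ i, (l i).factorial)
          * ((tot k).factorial * (tot l).factorial)) := by ring
      _ ≤ ((tot k + tot l).choose (tot k)) * ((∏ i, (k i).factorial) * (∏ i, (l i).factorial)
          * ((tot k).factorial * (tot l).factorial)) := Nat.mul_le_mul_right _ h
      _ = _ := by ring
  exact_mod_cast h4

theorem qe_add_left {n : ℕ} (k k' l : MI n) : qe (k + k') l = qe k l + qe k' l := by
  unfold qe
  rw [← Finset.sum_add_distrib]
  refine Finset.sum_congr rfl fun j _ => ?_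
  rw [← Finset.sum_add_distrib]
  refine Finset.sum_congr rfl fun i _ => ?_
  split_ifs
  · rw [Pi.add_apply, mul_add]
  · rfl

theorem qe_add_right {n : ℕ} (k l l' : MI n) : qe k (l + l') = qe k l + qe k l' := by
  unfold qe
  rw [← Finset.sum_add_distrib]
  refine Finset.sum_congr rfl fun j _ => ?_
  rw [← Finset.sum_add_distrib]
  refine Finset.sum_congr rfl fun i _ => ?_
  split_ifs
  · rw [Pi.add_apply, add_mul]
  · rfl

theorem qe_zero_left {n : ℕ} (l : MI n) : qe 0 l = 0 := by unfold qe; simp

theorem qe_zero_right {n : ℕ} (l : MI n) : qe l 0 = 0 := by unfold qe; simp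

/-- The data of `O_q(B^n_r)` for `|q| = 1`: `ℤ_+^n`, the cocycle `q^{-∑_{i<j} l_i k_j}` and the weights
`(k!/|k|!)^{1/2} ρ^{|k|}`, `0 < ρ < r`. -/
noncomputable def ballData (n : ℕ) (q : ℂ) (hq : ‖q‖ = 1) (r : ℝ) : WData (MI n) where
  I := {ρ : ℝ // 0 < ρ ∧ ρ < r}
  β k l := (q⁻¹) ^ (qe k l)
  wt ρ k := wq k * ρ.1 ^ tot k
  norm_β k l := by rw [norm_pow, norm_inv, hq]; simp
  β_zero_left l := by rw [qe_zero_left, pow_zero]
  β_zero_right l := by rw [qe_zero_right, pow_zero]
  β_assoc a b c := by
    rw [← pow_add, ← pow_add, qe_add_left, qe_add_right]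
    congr 1; ring
  wt_pos ρ k := mul_pos (wq_pos k) (pow_pos ρ.2.1 _)
  wt_zero ρ := by rw [wq_zero, tot_zero, pow_zero, mul_one]
  wt_add ρ k l := by
    rw [tot_add, pow_add]
    calc wq (k + l) * (ρ.1 ^ tot k * ρ.1 ^ tot l) ≤ (wq k * wq l) * (ρ.1 ^ tot k * ρ.1 ^ tot l) :=
          mul_le_mul_of_nonneg_right (wq_add k l)
            (mul_nonneg (pow_nonneg ρ.2.1.le _) (pow_nonneg ρ.2.1.le _))
      _ = _ := by ring

/-- the quantum ball algebra `O_q(B^n_r)` for `|q| = 1` -/
abbrev QBall (n : ℕ) (q : ℂ) (hq : ‖q‖ = 1) (r : ℝ) : Type := WAlg (ballData n q hq r)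

end K1H25.HF
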