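import Pool.Agent.K1H25.HF.Near
import Pool.Agent.K1H33.HF.Ent
import Pool.Agent.K1H43.HF.Net
import Pool.Agent.K1H52.HF.Decay
import Pool.Agent.K1H52.HF.WW
import Pool.Agent.K1H45.HF.Ser
import Pool.Agent.K1H45.HF.Eval
import Pool.Agent.K1H21.HF.Surj
import Pool.Agent.K1H58.HF.Top
import Pool.Agent.K1H26.HF.Claim
import Pool.Agent.K1H65.HF.Large

namespace K1H25.HF

open WAlg

theorem main (n : ℕ) (hn : 1 ≤ n) (q : ℂ) (hq : ‖q‖ = 1) (r : ℝ) (hr : 0 < r) : HFG (QBall n q hq r) :=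
  assemble
    (t_MAIN Pool.Agent.K1H33.HF.t_KB Pool.Agent.K1H33.HF.t_LV K1H52.HF.t_WW K1H45.HF.t_COMPL K1H45.HF.t_EVAL
      (K1H26.HF.t_CLAIM
        (K1H52.HF.t_DECAY
          (K1H43.HFN.t_NETK Pool.Agent.K1H33.HF.t_KUP Pool.Agent.K1H33.HF.t_KLO Pool.Agent.K1H33.HF.t_LV)
          Pool.Agent.K1H33.HF.t_KB Pool.Agent.K1H33.HF.t_LV)
        Pool.Agent.K1H33.HF.t_KB Pool.Agent.K1H33.HF.t_LV)
      Pool.Agent.K1H65.HF.t_LARGE)
    (t_SURJ K1H45.HF.t_COMPL) Pool.Agent.K1H58.HF.t_TOP n hn q hq r hr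

/-- The relation `x_i x_j = q x_j x_i` for `i < j` (a check of the cocycle). -/
theorem comm_rel (n : ℕ) (q : ℂ) (hq : ‖q‖ = 1) (r : ℝ) (i j : Fin n) (hij : i < j) :
    (mono (ballData n q hq r) (Pi.single i 1) * mono (ballData n q hq r) (Pi.single j 1) : QBall n q hq r)
      = q • (mono (ballData n q hq r) (Pi.single j 1) * mono (ballData n q hq r) (Pi.single i 1)) := by
  have hq0 : q ≠ 0 := by rintro rfl; simp at hq
  rw [mono_mul, mono_mul, smul_smul, add_comm (Pi.single i 1 : MI n) (Pi.single j 1)]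
  congr 1
  show q⁻¹ ^ qe (Pi.single i 1) (Pi.single j 1) = q * q⁻¹ ^ qe (Pi.single j 1) (Pi.single i 1)
  have h1 : qe (Pi.single i 1 : MI n) (Pi.single j 1) = 0 := by
    unfold qe
    refine Finset.sum_eq_zero fun b _ => Finset.sum_eq_zero fun a _ => ?_
    split_ifs with h
    · by_cases ha : a = j
      · by_cases hb : b = i
        · subst ha; subst hb; exact absurd h (not_lt.2 hij.le)
        · simp [hb]
      · simp [ha]
    · rfl
  have h2 : qe (Pi.single j 1 : MI n) (Pi.single i 1) = 1 := by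
    unfold qe
    rw [Finset.sum_eq_single j, Finset.sum_eq_single i]
    · simp [hij]
    · intro a _ ha; simp [ha]
    · intro h; exact absurd (Finset.mem_univ _) h
    · intro b _ hb
      refine Finset.sum_eq_zero fun a _ => ?_
      simp [hb]
    · intro h; exact absurd (Finset.mem_univ _) h
  rw [h1, h2]
  field_simp

end K1H25.HF
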