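import Pool.Agent.K1H25.HF.Main

/-! The generators, the level condition and the a priori estimates. -/

namespace K1H25.HF

open WAlg

/-- index set of the generators -/
abbrev Idx (n : ℕ) : Type := Fin n ⊕ (Fin 2 × (Fin n → Fin (14 * n)))

def NN (n : ℕ) : ℕ := Fintype.card (Idx n)

noncomputable def eqv (n : ℕ) : Fin (NN n) ≃ Idx n := (Fintype.equivFin (Idx n)).symm

section

variable (n : ℕ) (q : ℂ) (hq : ‖q‖ = 1) (r : ℝ)

/-- a tuple of generators from the family of the special ones -/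
noncomputable def tup (v : ℕ → MI n → QBall n q hq r) : Fin (NN n) → QBall n q hq r := fun s =>
  match eqv n s with
  | Sum.inl i => mono (ballData n q hq r) (Pi.single i 1)
  | Sum.inr (P, c) => v P.val (fun i => (c i).val)

/-- truncated tuple -/
noncomputable def gJ (M : ℕ → ℕ) (J : ℕ) : Fin (NN n) → QBall n q hq r :=
  tup n q hq r (ff (ek n q hq r) M J)

theorem gJ_congr {M M' : ℕ → ℕ} {J : ℕ} (h : ∀ j ≤ J, M j = M' j) : gJ n q hq r M J = gJ n q hq r M' J := by
  unfold gJ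
  congr 1
  funext P c
  exact ff_congr _ h P c

/-- radius `r exp(-γ_J)` -/
noncomputable def rhoJ (hr : 0 < r) (J : ℕ) : (ballData n q hq r).I :=
  ⟨r * Real.exp (-gam J), mul_pos hr (Real.exp_pos _), by
    have : Real.exp (-gam J) < 1 := by rw [← Real.exp_zero]; exact Real.exp_lt_exp.2 (by have := gam_pos J; linarith)
    nlinarith⟩

/-- the Lipschitz radius at level J -/
noncomputable def QQ (hr : 0 < r) (M : ℕ → ℕ) (J : ℕ) : ℝ :=
  1 + ∑ s, nrm (rhoJ n q hq r hr J) (gJ n q hq r M J s)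

theorem QQ_one_le (hr : 0 < r) (M : ℕ → ℕ) (J : ℕ) : 1 ≤ QQ n q hq r hr M J := by
  unfold QQ
  have : 0 ≤ ∑ s, nrm (rhoJ n q hq r hr J) (gJ n q hq r M J s) := Finset.sum_nonneg fun _ _ => nrm_nonneg _ _
  linarith

noncomputable def QI (hr : 0 < r) (M : ℕ → ℕ) (J : ℕ) : (freeData (NN n)).I :=
  ⟨2 * QQ n q hq r hr M J, by have := QQ_one_le n q hq r hr M J; linarith⟩

open Classical in
/-- a chosen preimage -/
noncomputable def FF (Φ : (Fin (NN n) → QBall n q hq r) → (FreeF (NN n) →ₐ[ℂ] QBall n q hq r))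
    (J : ℕ) (k : MI n) (m : ℕ) (h : ℕ → ℕ) : FreeF (NN n) :=
  if H : ∃ F : FreeF (NN n), Φ (gJ n q hq r h J) F = ek n q hq r k ∧
      nrm (rad (NN n) m) F < 2 * (Cc n r h m * Real.exp (-(3 / 4) * gam m * tot k))
  then H.choose else 0

theorem FF_spec (Φ : (Fin (NN n) → QBall n q hq r) → (FreeF (NN n) →ₐ[ℂ] QBall n q hq r))
    (J : ℕ) (k : MI n) (m : ℕ) (h : ℕ → ℕ)
    (H : ∃ F : FreeF (NN n), Φ (gJ n q hq r h J) F = ek n q hq r k ∧
      nrm (rad (NN n) m) F < 2 * (Cc n r h m * Real.exp (-(3 / 4) * gam m * tot k))) :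
    Φ (gJ n q hq r h J) (FF n q hq r Φ J k m h) = ek n q hq r k ∧
      nrm (rad (NN n) m) (FF n q hq r Φ J k m h) < 2 * (Cc n r h m * Real.exp (-(3 / 4) * gam m * tot k)) := by
  unfold FF
  rw [dif_pos H]
  exact H.choose_spec

/-- the condition on a new level -/
def PP (hr : 0 < r) (Φ : (Fin (NN n) → QBall n q hq r) → (FreeF (NN n) →ₐ[ℂ] QBall n q hq r))
    (j : ℕ) (h : ℕ → ℕ) (M : ℕ) : Prop :=
  ∃ B : ℝ, Hist n r h j B ∧ GoodM n (TT n j) (gam j) M B ∧ 2 ^ j ≤ B ∧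
    ∀ J < j, ∀ m ≤ J, ∀ k : MI n, tot k ≤ J →
      2 ^ j * (2 ^ J * nrm (QI n q hq r hr (trunc (J + 1) h) J) (FF n q hq r Φ J k m (trunc (J + 1) h))) ≤ B

theorem PP_exists (hn : 1 ≤ n) (hr : 0 < r) (LARGE : S_LARGE)
    (Φ : (Fin (NN n) → QBall n q hq r) → (FreeF (NN n) →ₐ[ℂ] QBall n q hq r))
    (j : ℕ) (h : ℕ → ℕ) : ∃ M, PP n q hq r hr Φ j h M := by
  classical
  let E : ℕ → ℕ → MI n → ℝ := fun J m k =>
    2 ^ j * (2 ^ J * nrm (QI n q hq r hr (trunc (J + 1) h) J) (FF n q hq r Φ J k m (trunc (J + 1) h)))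
  have hE : ∀ J m k, 0 ≤ E J m k := fun J m k => by
    have := nrm_nonneg (QI n q hq r hr (trunc (J + 1) h) J) (FF n q hq r Φ J k m (trunc (J + 1) h))
    positivity
  let B1 : ℝ := (j : ℝ) + 2 + ∑ i ∈ Finset.range j, Aa h i * ((TT n i : ℝ) + 1) ^ n * (Qr n r j) ^ (h i)
  let B2 : ℝ := ∑ m ∈ Finset.range j, 2 ^ j * Cc n r h m
  let B3 : ℝ := 2 ^ j
  let B4 : ℝ := ∑ J ∈ Finset.range j, ∑ m ∈ Finset.range (J + 1),
    ∑ k ∈ Fintype.piFinset (fun _ : Fin n => Finset.range (J + 1)), E J m k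
  have hB1 : 0 ≤ B1 := by
    have : 0 ≤ ∑ i ∈ Finset.range j, Aa h i * ((TT n i : ℝ) + 1) ^ n * (Qr n r j) ^ (h i) := by
      refine Finset.sum_nonneg fun i _ => ?_
      have h1 : 0 < Aa h i := Real.exp_pos _
      have h2 : 0 ≤ Qr n r j := le_trans zero_le_one (Qr_one_le hn hr j)
      positivity
    have hj : (0 : ℝ) ≤ j := Nat.cast_nonneg j
    show 0 ≤ (j : ℝ) + 2 + _
    linarith
  have hC : ∀ m, 0 ≤ 2 ^ j * Cc n r h m := fun m => by
    have := Cc_one_le hn hr h m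
    positivity
  have hB2 : 0 ≤ B2 := Finset.sum_nonneg fun m _ => hC m
  have hB3 : 0 ≤ B3 := by positivity
  have hB4 : 0 ≤ B4 := Finset.sum_nonneg fun J _ => Finset.sum_nonneg fun m _ => Finset.sum_nonneg fun k _ => hE J m k
  have hT : 0 < TT n j := by unfold TT; positivity
  obtain ⟨M, hM⟩ := LARGE n (TT n j) (gam j) (B1 + B2 + B3 + B4) (gam_pos j) hT
  refine ⟨M, B1 + B2 + B3 + B4, ⟨?_, ?_⟩, hM, ?_, ?_⟩
  · show B1 ≤ _
    linarith
  · intro m hm
    have : 2 ^ j * Cc n r h m ≤ B2 :=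
      Finset.single_le_sum (f := fun m => 2 ^ j * Cc n r h m) (fun i _ => hC i) (Finset.mem_range.2 hm)
    linarith
  · show B3 ≤ _
    linarith
  · intro J hJ m hm k hk
    have h1 : E J m k ≤ ∑ k ∈ Fintype.piFinset (fun _ : Fin n => Finset.range (J + 1)), E J m k := by
      refine Finset.single_le_sum (f := fun k => E J m k) (fun k _ => hE J m k) ?_
      rw [Fintype.mem_piFinset]
      intro i
      rw [Finset.mem_range]
      have : k i ≤ tot k := Finset.single_le_sum (f := k) (fun _ _ => Nat.zero_le _) (Finset.mem_univ i)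
      omega
    have h2 : (∑ k ∈ Fintype.piFinset (fun _ : Fin n => Finset.range (J + 1)), E J m k)
        ≤ ∑ m ∈ Finset.range (J + 1), ∑ k ∈ Fintype.piFinset (fun _ : Fin n => Finset.range (J + 1)), E J m k :=
      Finset.single_le_sum (f := fun m => ∑ k ∈ Fintype.piFinset (fun _ : Fin n => Finset.range (J + 1)), E J m k)
        (fun m _ => Finset.sum_nonneg fun k _ => hE J m k) (Finset.mem_range.2 (by omega))
    have h3 : (∑ m ∈ Finset.range (J + 1), ∑ k ∈ Fintype.piFinset (fun _ : Fin n => Finset.range (J + 1)), E J m k)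
        ≤ B4 :=
      Finset.single_le_sum (f := fun J => ∑ m ∈ Finset.range (J + 1),
        ∑ k ∈ Fintype.piFinset (fun _ : Fin n => Finset.range (J + 1)), E J m k)
        (fun J _ => Finset.sum_nonneg fun m _ => Finset.sum_nonneg fun k _ => hE J m k) (Finset.mem_range.2 hJ)
    show E J m k ≤ _
    linarith

/-- the summand -/
noncomputable def aa (M : ℕ → ℕ) (P : ℕ) (c : MI n) (j : ℕ) : QBall n q hq r :=
  if j % 2 = P then (Aa M j : ℂ) • uu (ek n q hq r) M j c else 0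

theorem ff_eq (M : ℕ → ℕ) (J P : ℕ) (c : MI n) :
    ff (ek n q hq r) M J P c = ∑ j ∈ Finset.range (J + 1), aa n q hq r M P c j := by
  unfold ff aa
  rw [Finset.sum_filter]

theorem nrm_sum {Γ : Type} [AddMonoid Γ] [Finset.HasAntidiagonal Γ] {D : WData Γ} (i : D.I) {ι : Type}
    (s : Finset ι) (f : ι → WAlg D) : nrm i (∑ j ∈ s, f j) ≤ ∑ j ∈ s, nrm i (f j) := by
  classical
  induction s using Finset.induction_on with
  | empty => simp [nrm_zero]
  | insert a s ha ih =>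
    rw [Finset.sum_insert ha, Finset.sum_insert ha]
    exact (nrm_add _ _ _).trans (by linarith)

theorem card_net (n T : ℕ) : ((Net n T).card : ℝ) ≤ ((T : ℝ) + 1) ^ n := by
  have h : (Net n T).card ≤ (T + 1) ^ n := by
    unfold Net
    refine (Finset.card_filter_le _ _).trans ?_
    rw [Fintype.card_piFinset]
    simp
  exact_mod_cast h

variable {n r}

theorem TT_ge (n j : ℕ) : 4 * n ≤ TT n j := by
  unfold TT
  have : 1 ≤ 2 ^ (j + 1) := Nat.one_le_two_pow
  nlinarith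

theorem nrm_aa (hn : 1 ≤ n) (hr : 0 < r) (KB : ∀ k : MI n, 0 < Wt k) (WW : S_WW) (LV : S_LV) {M : ℕ → ℕ} {J j : ℕ}
    (hJ : J < j) {B : ℝ} (hB : 0 < B) (hG : GoodM n (TT n j) (gam j) (M j) B) (P : ℕ) (c : MI n) :
    nrm (rhoJ n q hq r hr J) (aa n q hq r M P c j) ≤ 1 / B := by
  classical
  unfold aa
  split_ifs with hP
  swap
  · rw [nrm_zero]; positivity
  rw [nrm_smul, Complex.norm_real, Real.norm_of_nonneg (show 0 ≤ Aa M j from (Real.exp_pos _).le)]
  obtain ⟨h1, h2, h3, h4, h5, h6⟩ := hG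
  have e1 : nrm (rhoJ n q hq r hr J) (uu (ek n q hq r) M j c)
      ≤ ((TT n j : ℝ) + 1) ^ n * ((3 * ((M j : ℝ) + 1)) ^ n * Real.exp (-(gam J * M j))) := by
    unfold uu
    refine (nrm_sum _ _ _).trans ?_
    have : ∀ b ∈ (Net n (TT n j)).filter (fun b => ∀ i, b i % (14 * n) = c i),
        nrm (rhoJ n q hq r hr J) (ek n q hq r (lv (M j) b))
          ≤ (3 * ((M j : ℝ) + 1)) ^ n * Real.exp (-(gam J * M j)) := by
      intro b hb
      have hb' := (Finset.mem_filter.1 hb).1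
      have htot := (LV n (TT n j) (M j) b hn (TT_ge n j) h1 hb').1
      refine (nrm_ek_le hr KB WW _ _).trans ?_
      rw [htot]
      apply mul_le_mul_of_nonneg_left _ (by positivity)
      show (r * Real.exp (-gam J) / r) ^ (M j) ≤ _
      rw [mul_div_cancel_left₀ _ hr.ne', ← Real.exp_nat_mul]
      apply Real.exp_le_exp.2
      linarith
    refine (Finset.sum_le_sum this).trans ?_
    rw [Finset.sum_const, nsmul_eq_mul]
    apply mul_le_mul_of_nonneg_right _ (by positivity)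
    refine le_trans ?_ (card_net n (TT n j))
    exact_mod_cast Finset.card_filter_le _ _
  have e2 : Aa M j * nrm (rhoJ n q hq r hr J) (uu (ek n q hq r) M j c)
      ≤ ((TT n j : ℝ) + 1) ^ n * (3 * ((M j : ℝ) + 1)) ^ n * Real.exp (-(gam j * M j / 2)) := by
    calc Aa M j * nrm (rhoJ n q hq r hr J) (uu (ek n q hq r) M j c)
        ≤ Real.exp (gam j * M j) *
          (((TT n j : ℝ) + 1) ^ n * ((3 * ((M j : ℝ) + 1)) ^ n * Real.exp (-(gam J * M j)))) :=
          mul_le_mul_of_nonneg_left e1 (Real.exp_pos _).le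
      _ = ((TT n j : ℝ) + 1) ^ n * (3 * ((M j : ℝ) + 1)) ^ n *
          (Real.exp (gam j * M j) * Real.exp (-(gam J * M j))) := by ring
      _ ≤ _ := by
          apply mul_le_mul_of_nonneg_left _ (by positivity)
          rw [← Real.exp_add]
          apply Real.exp_le_exp.2
          have g1 := gam_le hJ
          have g2 := gam_pos j
          have g3 : (0 : ℝ) ≤ M j := Nat.cast_nonneg _
          nlinarith
  show Aa M j * _ ≤ _
  refine e2.trans ?_
  rw [le_div_iff₀ hB]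
  calc _ = ((TT n j : ℝ) + 1) ^ n * (3 * ((M j : ℝ) + 1)) ^ n * B * Real.exp (-(gam j * M j / 2)) := by ring
    _ ≤ 1 := h6

end

end K1H25.HF
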