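import Pool.Agent.K1H25.HF.Quot

/-! Construction of the generators. -/

namespace K1H25.HF

open WAlg

/-- history before `j` -/
def trunc (j : ℕ) (M : ℕ → ℕ) : ℕ → ℕ := fun i => if i < j then M i else 0

theorem trunc_lt {j i : ℕ} (h : i < j) (M : ℕ → ℕ) : trunc j M i = M i := by unfold trunc; rw [if_pos h]

theorem trunc_trunc {i j : ℕ} (h : i ≤ j) (M : ℕ → ℕ) : trunc i (trunc j M) = trunc i M := by
  funext k
  unfold trunc
  by_cases hk : k < i
  · rw [if_pos hk, if_pos hk, if_pos (lt_of_lt_of_le hk h)]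
  · rw [if_neg hk, if_neg hk]

theorem exists_seq (P : ℕ → (ℕ → ℕ) → ℕ → Prop) (h : ∀ j f, ∃ m, P j f m) :
    ∃ M : ℕ → ℕ, ∀ j, P j (trunc j M) (M j) := by
  choose g hg using h
  let s : ℕ → (ℕ → ℕ) := fun j => Nat.rec (fun _ => 0) (fun j f => Function.update f j (g j (trunc j f))) j
  have s_succ : ∀ j, s (j + 1) = Function.update (s j) j (g j (trunc j (s j))) := fun j => rfl
  let M : ℕ → ℕ := fun j => s (j + 1) j
  have hM : ∀ j, M j = g j (trunc j (s j)) := by
    intro j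
    show s (j + 1) j = _
    rw [s_succ, Function.update_self]
  have key : ∀ j i, i < j → s j i = M i := by
    intro j
    induction j with
    | zero => intro i hi; omega
    | succ j ih =>
      intro i hi
      by_cases hij : i = j
      · subst hij; rfl
      · rw [s_succ, Function.update_of_ne hij]
        exact ih i (by omega)
  refine ⟨M, fun j => ?_⟩
  have h1 : trunc j M = trunc j (s j) := by
    funext i
    unfold trunc
    by_cases hi : i < j
    · rw [if_pos hi, if_pos hi, key j i hi]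
    · rw [if_neg hi, if_neg hi]
  rw [h1, hM]
  exact hg _ _

/-! ### locality -/

theorem Aa_congr {M M' : ℕ → ℕ} {j : ℕ} (h : M j = M' j) : Aa M j = Aa M' j := by unfold Aa; rw [h]

theorem uu_congr {A : Type} [Ring A] {n : ℕ} (e : MI n → A) {M M' : ℕ → ℕ} {j : ℕ} (h : M j = M' j) (c : MI n) :
    uu e M j c = uu e M' j c := by unfold uu; rw [h]

theorem ff_congr {A : Type} [Ring A] [Algebra ℂ A] {n : ℕ} (e : MI n → A) {M M' : ℕ → ℕ} {J : ℕ}
    (h : ∀ j ≤ J, M j = M' j) (P : ℕ) (c : MI n) : ff e M J P c = ff e M' J P c := by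
  unfold ff
  refine Finset.sum_congr rfl fun j hj => ?_
  have : j ≤ J := by
    have := (Finset.mem_filter.1 hj).1
    rw [Finset.mem_range] at this
    omega
  rw [Aa_congr (h j this), uu_congr e (h j this)]

theorem Cc_congr {n : ℕ} {r : ℝ} {M M' : ℕ → ℕ} {m : ℕ} (h : M m = M' m) : Cc n r M m = Cc n r M' m := by
  unfold Cc; rw [h]

theorem Hist_congr {n : ℕ} {r : ℝ} {M M' : ℕ → ℕ} {j : ℕ} (h : ∀ i < j, M i = M' i) {B : ℝ}
    (H : Hist n r M j B) : Hist n r M' j B := by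
  refine ⟨?_, fun m hm => ?_⟩
  · have h1 := H.1
    have : ∑ i ∈ Finset.range j, Aa M i * ((TT n i : ℝ) + 1) ^ n * (Qr n r j) ^ (M i)
        = ∑ i ∈ Finset.range j, Aa M' i * ((TT n i : ℝ) + 1) ^ n * (Qr n r j) ^ (M' i) := by
      refine Finset.sum_congr rfl fun i hi => ?_
      rw [Finset.mem_range] at hi
      rw [Aa_congr (h i hi), h i hi]
    rwa [this] at h1
  · rw [← Cc_congr (h m hm)]
    exact H.2 m hm

/-! ### elementary facts on the constants -/

theorem gam_pos (j : ℕ) : 0 < gam j := by unfold gam; positivity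

theorem gam_le {i j : ℕ} (h : i < j) : 4 * gam j ≤ gam i := by
  unfold gam
  obtain ⟨d, rfl⟩ := Nat.exists_eq_add_of_lt h
  have : ((1 : ℝ) / 4) ^ (i + d + 1 + 1) = (1 / 4) ^ (i + 1) * ((1 / 4) ^ d * (1 / 4)) := by ring
  rw [this]
  have h1 : ((1 : ℝ) / 4) ^ d ≤ 1 := pow_le_one₀ (by norm_num) (by norm_num)
  have h2 : (0 : ℝ) < (1 / 4) ^ (i + 1) := by positivity
  nlinarith

theorem gam_tendsto : Filter.Tendsto gam Filter.atTop (nhds 0) := by
  unfold gam
  exact (tendsto_pow_atTop_nhds_zero_of_lt_one (by norm_num) (by norm_num)).comp (Filter.tendsto_add_atTop_nat 1)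

theorem Qr_one_le {n : ℕ} (hn : 1 ≤ n) {r : ℝ} (hr : 0 < r) (m : ℕ) : 1 ≤ Qr n r m := by
  unfold Qr
  have h1 : (1 : ℝ) ≤ n := by exact_mod_cast hn
  have h2 : (0 : ℝ) ≤ m := Nat.cast_nonneg m
  have h3 : 0 < 1 / r := by positivity
  have h4 : (1 : ℝ) ≤ ((m : ℝ) + 1) * n := by nlinarith
  nlinarith

theorem Cc_one_le {n : ℕ} (hn : 1 ≤ n) {r : ℝ} (hr : 0 < r) (M : ℕ → ℕ) (m : ℕ) : 1 ≤ Cc n r M m := by
  unfold Cc
  apply one_le_pow₀
  have h1 := Qr_one_le hn hr m
  have h2 : 1 ≤ Real.exp (gam m) := Real.one_le_exp (gam_pos m).le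
  nlinarith

/-! ### monomials -/

section ball

variable {n : ℕ} {q : ℂ} {hq : ‖q‖ = 1} {r : ℝ}

theorem ek_mul (hr : 0 < r) (KB : ∀ k : MI n, 0 < Wt k) (j l : MI n) :
    ek n q hq r j * ek n q hq r l
      = ((ballData n q hq r).β j l * (kap j l : ℂ)) • ek n q hq r (j + l) := by
  unfold ek
  rw [smul_mul_smul_comm, mono_mul, smul_smul, smul_smul]
  congr 1
  have h1 : (Wt j : ℂ) ≠ 0 := by exact_mod_cast (KB j).ne'
  have h2 : (Wt l : ℂ) ≠ 0 := by exact_mod_cast (KB l).ne'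
  have h3 : (Wt (j + l) : ℂ) ≠ 0 := by exact_mod_cast (KB (j + l)).ne'
  have h4 : (r : ℂ) ≠ 0 := by exact_mod_cast hr.ne'
  unfold kap
  rw [tot_add]
  push_cast
  rw [pow_add]
  field_simp

theorem mono_eq_ek (hr : 0 < r) (KB : ∀ k : MI n, 0 < Wt k) (k : MI n) :
    mono (ballData n q hq r) k = ((Wt k * r ^ tot k : ℝ) : ℂ) • ek n q hq r k := by
  unfold ek
  rw [smul_smul, ← Complex.ofReal_mul, mul_inv_cancel₀, Complex.ofReal_one, one_smul]
  exact (mul_pos (KB k) (pow_pos hr _)).ne'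

theorem nrm_ek (hr : 0 < r) (KB : ∀ k : MI n, 0 < Wt k) (ρ : (ballData n q hq r).I) (k : MI n) :
    nrm ρ (ek n q hq r k) = wq k / Wt k * (ρ.1 / r) ^ tot k := by
  unfold ek
  rw [nrm_smul, nrm_mono, Complex.norm_real, Real.norm_of_nonneg
    (inv_nonneg.2 (mul_pos (KB k) (pow_pos hr _)).le)]
  show (Wt k * r ^ tot k)⁻¹ * (wq k * ρ.1 ^ tot k) = _
  have h1 := (KB k).ne'
  rw [div_pow]
  field_simp

theorem nrm_ek_le (hr : 0 < r) (KB : ∀ k : MI n, 0 < Wt k) (WW : S_WW) (ρ : (ballData n q hq r).I) (k : MI n) :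
    nrm ρ (ek n q hq r k) ≤ (3 * ((tot k : ℝ) + 1)) ^ n * (ρ.1 / r) ^ tot k := by
  rw [nrm_ek hr KB]
  apply mul_le_mul_of_nonneg_right _ (pow_nonneg (div_nonneg ρ.2.1.le hr.le) _)
  rw [div_le_iff₀ (KB k)]
  exact (WW n k).2

theorem single_ne {k : MI n} (hk : k ≠ 0) : ∃ (i : Fin n) (k' : MI n), k = k' + Pi.single i 1 := by
  have : ∃ i, k i ≠ 0 := by
    by_contra h
    push Not at h
    exact hk (funext h)
  obtain ⟨i, hi⟩ := this
  refine ⟨i, k - Pi.single i 1, ?_⟩
  funext j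
  by_cases hj : j = i
  · subst hj; simp; omega
  · simp [hj]

theorem tot_single (i : Fin n) : tot (Pi.single i 1 : MI n) = 1 := by
  unfold tot
  rw [Finset.sum_pi_single']
  simp

/-- the monomials have short preimages -/
theorem mono_pre {N : ℕ} (Φ : FreeF N →ₐ[ℂ] QBall n q hq r) (m : ℕ)
    (hx : ∀ i : Fin n, ∃ F : FreeF N, Φ F = mono (ballData n q hq r) (Pi.single i 1) ∧
      nrm (rad N m) F ≤ (m : ℝ) + 1) :
    ∀ k : MI n, ∃ F : FreeF N, Φ F = mono (ballData n q hq r) k ∧ nrm (rad N m) F ≤ ((m : ℝ) + 1) ^ tot k := by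
  have main : ∀ d : ℕ, ∀ k : MI n, tot k = d →
      ∃ F : FreeF N, Φ F = mono (ballData n q hq r) k ∧ nrm (rad N m) F ≤ ((m : ℝ) + 1) ^ tot k := by
    intro d
    induction d with
    | zero =>
      intro k hk
      have : k = 0 := by
        funext i
        unfold tot at hk
        have := Finset.sum_eq_zero_iff.1 hk i (Finset.mem_univ i)
        exact this
      subst this
      refine ⟨1, ?_, ?_⟩
      · rw [map_one, one_def]
      · rw [nrm_one, tot_zero, pow_zero]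
    | succ d ih =>
      intro k hk
      have hk0 : k ≠ 0 := by rintro rfl; rw [tot_zero] at hk; omega
      obtain ⟨i, k', rfl⟩ := single_ne hk0
      rw [tot_add, tot_single] at hk
      obtain ⟨F, hF, hF2⟩ := ih k' (by omega)
      obtain ⟨G, hG, hG2⟩ := hx i
      have hb : (ballData n q hq r).β k' (Pi.single i 1) ≠ 0 := by
        rw [← norm_pos_iff, (ballData n q hq r).norm_β]; exact one_pos
      refine ⟨((ballData n q hq r).β k' (Pi.single i 1))⁻¹ • (F * G), ?_, ?_⟩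
      · rw [map_smul, map_mul, hF, hG, mono_mul, smul_smul, inv_mul_cancel₀ hb, one_smul]
      · rw [nrm_smul, norm_inv, (ballData n q hq r).norm_β, inv_one, one_mul, tot_add, tot_single, pow_succ]
        refine (nrm_mul _ _ _).trans ?_
        exact mul_le_mul hF2 hG2 (nrm_nonneg _ _) (by positivity)
  intro k
  exact main _ k rfl

end ball

end K1H25.HF
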