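import Pool.Agent.K1H25.HF.Gen

/-! The main construction: `S_MAIN`. -/

namespace K1H25.HF

open WAlg

section

variable {n : ℕ} {q : ℂ} {hq : ‖q‖ = 1} {r : ℝ}

theorem wlen_of {N : ℕ} (s : Fin N) : wlen (FreeAddMonoid.of s : Words N) = 1 := rfl

theorem nrm_gen {N : ℕ} (m : ℕ) (s : Fin N) :
    nrm (rad N m) (mono (freeData N) (FreeAddMonoid.of s)) = (m : ℝ) + 1 := by
  rw [nrm_mono]
  show ((m : ℝ) + 1) ^ wlen (FreeAddMonoid.of s : Words N) = _
  rw [wlen_of, pow_one]

theorem gJ_pre {Φ : (Fin (NN n) → QBall n q hq r) → (FreeF (NN n) →ₐ[ℂ] QBall n q hq r)}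
    (E1 : ∀ f s, Φ f (mono (freeData (NN n)) (FreeAddMonoid.of s)) = f s)
    (M : ℕ → ℕ) (J m : ℕ) (k : MI n) :
    ∃ F : FreeF (NN n), Φ (gJ n q hq r M J) F = mono (ballData n q hq r) k ∧
      nrm (rad (NN n) m) F ≤ ((m : ℝ) + 1) ^ tot k := by
  refine mono_pre _ m (fun i => ?_) k
  refine ⟨mono (freeData (NN n)) (FreeAddMonoid.of ((eqv n).symm (Sum.inl i))), ?_, (nrm_gen m _).le⟩
  rw [E1]
  unfold gJ tup
  rw [Equiv.apply_symm_apply]

theorem ek_mem {Φ : (Fin (NN n) → QBall n q hq r) → (FreeF (NN n) →ₐ[ℂ] QBall n q hq r)}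
    (E1 : ∀ f s, Φ f (mono (freeData (NN n)) (FreeAddMonoid.of s)) = f s)
    (M : ℕ → ℕ) (J : ℕ) (k : MI n) : ek n q hq r k ∈ (Φ (gJ n q hq r M J)).range := by
  obtain ⟨F, hF, _⟩ := gJ_pre E1 M J 0 k
  unfold ek
  have h : mono (ballData n q hq r) k ∈ (Φ (gJ n q hq r M J)).range := (AlgHom.mem_range _).2 ⟨F, hF⟩
  exact Subalgebra.smul_mem _ h _

theorem coe_ff {A : Type} [Ring A] [Algebra ℂ A] (S : Subalgebra ℂ A) (e : MI n → S) (M : ℕ → ℕ) (J P : ℕ)
    (c : MI n) : ((ff e M J P c : S) : A) = ff (fun k => (e k : A)) M J P c := by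
  classical
  unfold ff uu
  simp only [AddSubmonoidClass.coe_finsetSum, Subalgebra.coe_smul]

/-- the claim for the truncated evaluation -/
theorem claimJ (KB : S_KB) (CLAIM : S_CLAIM) (hn : 1 ≤ n) (hr : 0 < r)
    {Φ : (Fin (NN n) → QBall n q hq r) → (FreeF (NN n) →ₐ[ℂ] QBall n q hq r)}
    (E1 : ∀ f s, Φ f (mono (freeData (NN n)) (FreeAddMonoid.of s)) = f s)
    (M : ℕ → ℕ) (J : ℕ)
    (hM : ∀ j ≤ J, ∃ B, Hist n r M j B ∧ GoodM n (TT n j) (gam j) (M j) B) (m : ℕ) (hm : m ≤ J) (k : MI n) :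
    ∃ F : FreeF (NN n), Φ (gJ n q hq r M J) F = ek n q hq r k ∧
      nrm (rad (NN n) m) F < 2 * (Cc n r M m * Real.exp (-(3 / 4) * gam m * tot k)) := by
  have hKB := KB n hn
  let Ψ := Φ (gJ n q hq r M J)
  let e : MI n → Ψ.range := fun k => ⟨ek n q hq r k, ek_mem E1 M J k⟩
  have main := CLAIM n r M J Ψ.range e (ballData n q hq r).β (qn Ψ) hn hr
    (ballData n q hq r).norm_β
    (fun j l => Subtype.ext (ek_mul hr hKB.1 j l))
    (qn_nonneg Ψ) (qn_add Ψ) (qn_mul Ψ) (qn_smul Ψ) (qn_succ Ψ)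
    (by
      intro m k
      obtain ⟨F, hF, hF2⟩ := gJ_pre E1 M J m k
      have hW := hKB.1 k
      have hWn := hKB.2.2.2 k
      have hpos : 0 < Wt k * r ^ tot k := mul_pos hW (pow_pos hr _)
      refine (qn_le Ψ m (F := (((Wt k * r ^ tot k)⁻¹ : ℝ) : ℂ) • F) ?_).trans ?_
      · show Φ (gJ n q hq r M J) _ = ek n q hq r k
        rw [map_smul, hF]
        rfl
      · rw [nrm_smul, Complex.norm_real, Real.norm_of_nonneg (inv_nonneg.2 hpos.le)]
        calc (Wt k * r ^ tot k)⁻¹ * nrm (rad (NN n) m) F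
            ≤ (Wt k * r ^ tot k)⁻¹ * ((m : ℝ) + 1) ^ tot k :=
              mul_le_mul_of_nonneg_left hF2 (inv_nonneg.2 hpos.le)
          _ = (Wt k)⁻¹ * (((m : ℝ) + 1) ^ tot k * (1 / r) ^ tot k) := by
              rw [mul_inv, one_div, inv_pow]; ring
          _ ≤ (n : ℝ) ^ tot k * (((m : ℝ) + 1) ^ tot k * (1 / r) ^ tot k) := by
              apply mul_le_mul_of_nonneg_right _ (by positivity)
              rw [inv_le_iff_one_le_mul₀ hW]
              exact hWn
          _ = (((m : ℝ) + 1) * n * (1 / r)) ^ tot k := by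
              rw [mul_pow, mul_pow]; ring
          _ ≤ (Qr n r m) ^ tot k := by
              apply pow_le_pow_left₀ (by positivity)
              unfold Qr
              apply mul_le_mul_of_nonneg_left _ (by positivity)
              linarith)
    (by
      intro m P hP c hc
      let s : Fin (NN n) := (eqv n).symm (Sum.inr (⟨P, hP⟩, fun i => ⟨c i, hc i⟩))
      refine (qn_le Ψ m (F := mono (freeData (NN n)) (FreeAddMonoid.of s)) ?_).trans (nrm_gen m _).le
      rw [coe_ff]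
      show Φ (gJ n q hq r M J) _ = ff (ek n q hq r) M J P c
      rw [E1]
      unfold gJ tup
      rw [Equiv.apply_symm_apply])
    hM m hm k
  have hC := Cc_one_le hn hr M m
  have hlt : qn Ψ m (e k) < 2 * (Cc n r M m * Real.exp (-(3 / 4) * gam m * tot k)) := by
    have : 0 < Cc n r M m * Real.exp (-(3 / 4) * gam m * tot k) := mul_pos (by linarith) (Real.exp_pos _)
    linarith
  exact qn_lt Ψ m hlt

theorem exists_rhoJ (hr : 0 < r) (ρ : (ballData n q hq r).I) :
    ∃ J0, ∀ J ≥ J0, ρ.1 ≤ (rhoJ n q hq r hr J).1 := by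
  have h1 : Filter.Tendsto (fun J => r * Real.exp (-gam J)) Filter.atTop (nhds (r * Real.exp (-0))) :=
    ((Real.continuous_exp.tendsto _).comp gam_tendsto.neg).const_mul r
  rw [neg_zero, Real.exp_zero, mul_one] at h1
  have h2 := h1.eventually (Ici_mem_nhds ρ.2.2)
  exact Filter.eventually_atTop.1 h2

end

theorem t_MAIN (KB : S_KB) (LV : S_LV) (WW : S_WW) (COMPL : S_COMPL) (EVAL : S_EVAL) (CLAIM : S_CLAIM)
    (LARGE : S_LARGE) : S_MAIN := by
  intro n q hq r hn hr
  have KBp : ∀ k : MI n, 0 < Wt k := (KB n hn).1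
  have hI : Nonempty (ballData n q hq r).I := ⟨rhoJ n q hq r hr 0⟩
  obtain ⟨Φ, E1, E2, E3⟩ := EVAL (MI n) (ballData n q hq r) (NN n) hI
  obtain ⟨M, hM⟩ := exists_seq (PP n q hq r hr Φ) (PP_exists n q hq r hn hr LARGE Φ)
  choose B hB using hM
  have B1 : ∀ j, Hist n r M j (B j) := fun j => Hist_congr (fun i hi => trunc_lt hi M) (hB j).1
  have B2 : ∀ j, GoodM n (TT n j) (gam j) (M j) (B j) := fun j => (hB j).2.1
  have B3 : ∀ j, (2 : ℝ) ^ j ≤ B j := fun j => (hB j).2.2.1
  have Bpos : ∀ j, 0 < B j := fun j => lt_of_lt_of_le (by positivity) (B3 j)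
  have B4 : ∀ j, ∀ J < j, ∀ m ≤ J, ∀ k : MI n, tot k ≤ J →
      2 ^ j * (2 ^ J * nrm (QI n q hq r hr (trunc (J + 1) M) J) (FF n q hq r Φ J k m (trunc (J + 1) M)))
        ≤ B j := by
    intro j J hJ m hm k hk
    have := (hB j).2.2.2 J hJ m hm k hk
    rwa [trunc_trunc (by omega)] at this
  have Binv : ∀ j, 1 / B j ≤ (1 / 2 : ℝ) ^ j := by
    intro j
    rw [one_div_pow]
    exact one_div_le_one_div_of_le (by positivity) (B3 j)
  have hA : ∀ P c J j, J < j → nrm (rhoJ n q hq r hr J) (aa n q hq r M P c j) ≤ 1 / B j :=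
    fun P c J j hJ => nrm_aa q hq hn hr KBp WW LV hJ (Bpos j) (B2 j) P c
  have geo : ∀ J : ℕ, Summable fun j : ℕ => (1 / 2 : ℝ) ^ (j + J + 1) := by
    intro J
    have := (summable_geometric_of_lt_one (r := (1 / 2 : ℝ)) (by norm_num) (by norm_num)).mul_left
      ((1 / 2 : ℝ) ^ (J + 1))
    refine this.congr fun j => ?_
    rw [← pow_add]; congr 1; ring
  have geosum : ∀ J : ℕ, ∑' j : ℕ, (1 / 2 : ℝ) ^ (j + J + 1) = (1 / 2) ^ J := by
    intro J
    have h1 : ∀ j : ℕ, (1 / 2 : ℝ) ^ (j + J + 1) = (1 / 2) ^ (J + 1) * (1 / 2) ^ j := by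
      intro j; rw [← pow_add]; congr 1; ring
    simp_rw [h1]
    rw [tsum_mul_left, tsum_geometric_of_lt_one (by norm_num) (by norm_num), pow_succ]
    have : (1 - (1 / 2 : ℝ))⁻¹ = 2 := by norm_num
    rw [this]; ring
  have hS : ∀ P c (ρ : (ballData n q hq r).I), Summable fun j => nrm ρ (aa n q hq r M P c j) := by
    intro P c ρ
    obtain ⟨J, hJ⟩ := exists_rhoJ hr ρ
    have hJ := hJ J le_rfl
    rw [← summable_nat_add_iff (J + 1)]
    refine Summable.of_nonneg_of_le (fun j => nrm_nonneg _ _) (fun j => ?_) (geo J)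
    refine (nrm_mono_ball _ _ hJ _).trans ?_
    exact (hA P c J (j + (J + 1)) (by omega)).trans (Binv _)
  have hL := fun (P : ℕ) (c : MI n) => COMPL (MI n) (ballData n q hq r) (aa n q hq r M P c) (hS P c)
  choose L hL using hL
  let f : Fin (NN n) → QBall n q hq r := tup n q hq r L
  let δ : ℕ → ℝ := fun J => ∑' j : ℕ, 1 / B (j + J + 1)
  have sB : ∀ J, Summable fun j : ℕ => 1 / B (j + J + 1) := fun J =>
    Summable.of_nonneg_of_le (fun j => (one_div_pos.2 (Bpos _)).le) (fun j => Binv _) (geo J)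
  have δ0 : ∀ J, 0 ≤ δ J := fun J => tsum_nonneg fun j => (one_div_pos.2 (Bpos _)).le
  have δ1 : ∀ J, δ J ≤ 1 := by
    intro J
    have h1 : δ J ≤ ∑' j : ℕ, (1 / 2 : ℝ) ^ (j + J + 1) := (sB J).tsum_le_tsum (fun j => Binv _) (geo J)
    rw [geosum] at h1
    exact h1.trans (pow_le_one₀ (by norm_num) (by norm_num))
  have hdiff : ∀ J s, nrm (rhoJ n q hq r hr J) (f s - gJ n q hq r M J s) ≤ δ J := by
    intro J s
    show nrm _ (tup n q hq r L s - tup n q hq r (ff (ek n q hq r) M J) s) ≤ _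
    unfold tup
    rcases eqv n s with i | ⟨P, c⟩
    · simp only [sub_self, nrm_zero]
      exact δ0 J
    · simp only
      rw [ff_eq]
      refine (hL _ _ (rhoJ n q hq r hr J) (J + 1)).trans ?_
      refine Summable.tsum_le_tsum (fun j => ?_) ?_ (sB J)
      · have := hA P.val (fun i => (c i).val) J (j + (J + 1)) (by omega)
        rw [add_assoc]
        exact this
      · exact (summable_nat_add_iff (J + 1)).2 (hS _ _ _)
  have hδF : ∀ J, ∀ m ≤ J, ∀ k : MI n, tot k ≤ J →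
      δ J * nrm (QI n q hq r hr (trunc (J + 1) M) J) (FF n q hq r Φ J k m (trunc (J + 1) M)) ≤ (1 / 2) ^ J := by
    intro J m hm k hk
    set x := nrm (QI n q hq r hr (trunc (J + 1) M) J) (FF n q hq r Φ J k m (trunc (J + 1) M)) with hx
    have hx0 : 0 ≤ x := nrm_nonneg _ _
    have h1 : ∀ j : ℕ, 1 / B (j + J + 1) * x ≤ (1 / 2) ^ (j + J + 1) * (1 / 2) ^ J := by
      intro j
      have h2 := B4 (j + J + 1) J (by omega) m hm k hk
      rw [← hx] at h2
      rw [one_div, inv_mul_le_iff₀ (Bpos _)]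
      have h3 : x = (1 / 2) ^ (j + J + 1) * (1 / 2) ^ J * (2 ^ (j + J + 1) * (2 ^ J * x)) := by
        have e1 : ((1 : ℝ) / 2) ^ (j + J + 1) * 2 ^ (j + J + 1) = 1 := by
          rw [← mul_pow]; norm_num
        have e2 : ((1 : ℝ) / 2) ^ J * 2 ^ J = 1 := by
          rw [← mul_pow]; norm_num
        calc x = 1 * (1 * x) := by ring
          _ = (((1 : ℝ) / 2) ^ (j + J + 1) * 2 ^ (j + J + 1)) * ((((1 : ℝ) / 2) ^ J * 2 ^ J) * x) := by
              rw [e1, e2]
          _ = _ := by ring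
      rw [h3, mul_comm (B (j + J + 1))]
      exact mul_le_mul_of_nonneg_left h2 (by positivity)
    show (∑' j : ℕ, 1 / B (j + J + 1)) * x ≤ _
    rw [← tsum_mul_right]
    have h4 := Summable.tsum_le_tsum h1 ((sB J).mul_right x) ((geo J).mul_right _)
    have e5 : ∑' i : ℕ, (1 / 2 : ℝ) ^ (i + J + 1) * (1 / 2) ^ J = (1 / 2) ^ J * (1 / 2) ^ J := by
      rw [tsum_mul_right, geosum]
    rw [e5, tsum_mul_right] at h4
    rw [tsum_mul_right]
    refine h4.trans ?_
    have : ((1 : ℝ) / 2) ^ J ≤ 1 := pow_le_one₀ (by norm_num) (by norm_num)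
    have h0 : (0 : ℝ) ≤ (1 / 2) ^ J := by positivity
    nlinarith
  refine ⟨NN n, Φ f, ?_, ?_⟩
  · intro ρ
    have hs : 0 ≤ ∑ s, nrm ρ (f s) := Finset.sum_nonneg fun _ _ => nrm_nonneg _ _
    refine ⟨⟨1 + ∑ s, nrm ρ (f s), by linarith⟩, 1, zero_le_one, fun F => ?_⟩
    rw [one_mul]
    refine E2 f ρ _ _ (fun s => ?_) F
    have : nrm ρ (f s) ≤ ∑ s, nrm ρ (f s) :=
      Finset.single_le_sum (f := fun s => nrm ρ (f s)) (fun _ _ => nrm_nonneg _ _) (Finset.mem_univ s)
    linarith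
  · intro R
    obtain ⟨m, hm⟩ := exists_nat_ge R.1
    have hR : R.1 ≤ (rad (NN n) m).1 := by show R.1 ≤ (m : ℝ) + 1; linarith
    have hexp : Real.exp (-(3 / 4) * gam m) < 1 := by
      rw [← Real.exp_zero]; exact Real.exp_lt_exp.2 (by have := gam_pos m; linarith)
    have hC := Cc_one_le hn hr M m
    refine ⟨⟨r * Real.exp (-(3 / 4) * gam m), mul_pos hr (Real.exp_pos _), by nlinarith⟩,
      2 * Cc n r M m, by linarith, ?_⟩
    intro k ρ' ε hε
    set w : ℝ := Wt k * r ^ tot k with hw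
    have hwpos : 0 < w := mul_pos (KBp k) (pow_pos hr _)
    obtain ⟨J0, hJ0⟩ := exists_rhoJ hr ρ'
    obtain ⟨J1, hJ1⟩ := exists_pow_lt_of_lt_one (show 0 < ε / w by positivity) (show (1 / 2 : ℝ) < 1 by norm_num)
    set J := max (max J0 J1) (max m (tot k)) with hJdef
    have j0 : J0 ≤ J := le_trans (le_max_left _ _) (le_max_left _ _)
    have j1 : J1 ≤ J := le_trans (le_max_right _ _) (le_max_left _ _)
    have jm : m ≤ J := le_trans (le_max_left _ _) (le_max_right _ _)
    have jk : tot k ≤ J := le_trans (le_max_right _ _) (le_max_right _ _)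
    have hg : gJ n q hq r (trunc (J + 1) M) J = gJ n q hq r M J :=
      gJ_congr n q hq r fun j hj => trunc_lt (by omega) M
    have hcc : Cc n r (trunc (J + 1) M) m = Cc n r M m := Cc_congr (trunc_lt (by omega) M)
    have hex := claimJ KB CLAIM hn hr E1 M J (fun j _ => ⟨B j, B1 j, B2 j⟩) m jm k
    have hspec := FF_spec n q hq r Φ J k m (trunc (J + 1) M) (by rw [hg, hcc]; exact hex)
    set F := FF n q hq r Φ J k m (trunc (J + 1) M) with hF
    rw [hg, hcc] at hspec
    obtain ⟨hs1, hs2⟩ := hspec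
    refine ⟨(w : ℂ) • F, ?_, ?_⟩
    · rw [nrm_smul, Complex.norm_real, Real.norm_of_nonneg hwpos.le, nrm_mono]
      show w * nrm R F ≤ 2 * Cc n r M m * (wq k * (r * Real.exp (-(3 / 4) * gam m)) ^ tot k)
      have h1 : nrm R F ≤ 2 * (Cc n r M m * Real.exp (-(3 / 4) * gam m * tot k)) :=
        (nrm_mono_rad _ _ hR F).trans hs2.le
      have h2 : (r * Real.exp (-(3 / 4) * gam m)) ^ tot k = r ^ tot k * Real.exp (-(3 / 4) * gam m * tot k) := by
        rw [mul_pow, ← Real.exp_nat_mul]; congr 2; ring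
      rw [h2]
      calc w * nrm R F ≤ w * (2 * (Cc n r M m * Real.exp (-(3 / 4) * gam m * tot k))) :=
            mul_le_mul_of_nonneg_left h1 hwpos.le
        _ = 2 * Cc n r M m * (Wt k * (r ^ tot k * Real.exp (-(3 / 4) * gam m * tot k))) := by rw [hw]; ring
        _ ≤ _ := by
            apply mul_le_mul_of_nonneg_left _ (by linarith)
            exact mul_le_mul_of_nonneg_right (WW n k).1 (by positivity)
    · rw [mono_eq_ek hr KBp k, map_smul, ← smul_sub, nrm_smul, Complex.norm_real, Real.norm_of_nonneg hwpos.le]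
      have h1 : nrm ρ' (ek n q hq r k - Φ f F) ≤ (1 / 2) ^ J := by
        rw [← hs1]
        refine (nrm_mono_ball _ _ (hJ0 J j0) _).trans ?_
        have hQ1 := QQ_one_le n q hq r hr (trunc (J + 1) M) J
        have hsum : ∀ s, nrm (rhoJ n q hq r hr J) (gJ n q hq r M J s)
            ≤ ∑ s, nrm (rhoJ n q hq r hr J) (gJ n q hq r M J s) := fun s =>
          Finset.single_le_sum (f := fun s => nrm (rhoJ n q hq r hr J) (gJ n q hq r M J s))
            (fun _ _ => nrm_nonneg _ _) (Finset.mem_univ s)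
        have hQe : QQ n q hq r hr (trunc (J + 1) M) J
            = 1 + ∑ s, nrm (rhoJ n q hq r hr J) (gJ n q hq r M J s) := by
          unfold QQ; rw [hg]
        have h5 := E3 (gJ n q hq r M J) f (rhoJ n q hq r hr J) (QQ n q hq r hr (trunc (J + 1) M) J) (δ J) hQ1
          (δ0 J)
          (fun s => by rw [hQe]; have := hsum s; linarith)
          (fun s => by
            rw [hQe]
            have e1 := hsum s
            have e2 := hdiff J s
            have e3 := nrm_add (rhoJ n q hq r hr J) (f s - gJ n q hq r M J s) (gJ n q hq r M J s)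
            rw [sub_add_cancel] at e3
            have e4 := δ1 J
            linarith)
          (fun s => by
            have e2 := hdiff J s
            rw [← nrm_neg, neg_sub]
            exact e2) F
        exact h5.trans (hδF J m jm k jk)
      calc w * nrm ρ' (ek n q hq r k - Φ f F) ≤ w * (1 / 2) ^ J := mul_le_mul_of_nonneg_left h1 hwpos.le
        _ ≤ w * (1 / 2) ^ J1 := by
            apply mul_le_mul_of_nonneg_left _ hwpos.le
            exact pow_le_pow_of_le_one (by norm_num) (by norm_num) j1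
        _ ≤ w * (ε / w) := mul_le_mul_of_nonneg_left hJ1.le hwpos.le
        _ = ε := by field_simp

end K1H25.HF
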