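import Pool.Agent.K1H25.HF.Stm

/-! The quotient seminorms of an algebra homomorphism from `F(C^N)`. -/

namespace K1H25.HF

open WAlg

/-- the radius `m + 1` -/
def rad (N m : ℕ) : (freeData N).I := ⟨(m : ℝ) + 1, by positivity⟩

theorem nrm_mono_rad {N : ℕ} (R R' : (freeData N).I) (h : R.1 ≤ R'.1) (F : FreeF N) :
    nrm R F ≤ nrm R' F := by
  unfold nrm
  refine Summable.tsum_le_tsum (fun w => ?_) (F.summ R) (F.summ R')
  refine mul_le_mul_of_nonneg_left ?_ (norm_nonneg _)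
  exact pow_le_pow_left₀ R.2.le h _

theorem nrm_mono_ball {n : ℕ} {q : ℂ} {hq : ‖q‖ = 1} {r : ℝ} (ρ ρ' : (ballData n q hq r).I) (h : ρ.1 ≤ ρ'.1)
    (F : QBall n q hq r) : nrm ρ F ≤ nrm ρ' F := by
  unfold nrm
  refine Summable.tsum_le_tsum (fun w => ?_) (F.summ ρ) (F.summ ρ')
  refine mul_le_mul_of_nonneg_left ?_ (norm_nonneg _)
  exact mul_le_mul_of_nonneg_left (pow_le_pow_left₀ ρ.2.1.le h _) (wq_pos _).le

section quot

variable {N : ℕ} {A : Type} [Ring A] [Algebra ℂ A] (Φ : FreeF N →ₐ[ℂ] A)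

/-- the quotient seminorm at radius `m+1` -/
noncomputable def qn (m : ℕ) (a : Φ.range) : ℝ := sInf {x | ∃ F : FreeF N, Φ F = a ∧ x = nrm (rad N m) F}

theorem qn_bdd (m : ℕ) (a : Φ.range) : BddBelow {x | ∃ F : FreeF N, Φ F = a ∧ x = nrm (rad N m) F} :=
  ⟨0, by rintro x ⟨F, _, rfl⟩; exact nrm_nonneg _ _⟩

theorem qn_ne (m : ℕ) (a : Φ.range) : {x | ∃ F : FreeF N, Φ F = a ∧ x = nrm (rad N m) F}.Nonempty := by
  obtain ⟨F, hF⟩ := a.2
  exact ⟨_, F, hF, rfl⟩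

theorem qn_le (m : ℕ) {a : Φ.range} {F : FreeF N} (h : Φ F = a) : qn Φ m a ≤ nrm (rad N m) F :=
  csInf_le (qn_bdd Φ m a) ⟨F, h, rfl⟩

theorem le_qn (m : ℕ) {a : Φ.range} {c : ℝ} (h : ∀ F : FreeF N, Φ F = a → c ≤ nrm (rad N m) F) : c ≤ qn Φ m a :=
  le_csInf (qn_ne Φ m a) (by rintro x ⟨F, hF, rfl⟩; exact h F hF)

theorem qn_lt (m : ℕ) {a : Φ.range} {c : ℝ} (h : qn Φ m a < c) : ∃ F : FreeF N, Φ F = a ∧ nrm (rad N m) F < c := by
  obtain ⟨x, ⟨F, hF, rfl⟩, hx⟩ := exists_lt_of_csInf_lt (qn_ne Φ m a) h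
  exact ⟨F, hF, hx⟩

theorem qn_nonneg (m : ℕ) (a : Φ.range) : 0 ≤ qn Φ m a := le_qn Φ m fun F _ => nrm_nonneg _ _

theorem qn_add (m : ℕ) (a b : Φ.range) : qn Φ m (a + b) ≤ qn Φ m a + qn Φ m b := by
  have h1 : ∀ F : FreeF N, Φ F = a → qn Φ m (a + b) - nrm (rad N m) F ≤ qn Φ m b := by
    intro F hF
    refine le_qn Φ m fun G hG => ?_
    have : Φ (F + G) = ((a + b : Φ.range) : A) := by rw [map_add, hF, hG]; rfl
    have := qn_le Φ m this
    have := nrm_add (rad N m) F G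
    linarith
  have h2 : qn Φ m (a + b) - qn Φ m b ≤ qn Φ m a := le_qn Φ m fun F hF => by have := h1 F hF; linarith
  linarith

theorem qn_mul (m : ℕ) (a b : Φ.range) : qn Φ m (a * b) ≤ qn Φ m a * qn Φ m b := by
  have key : ∀ F : FreeF N, Φ F = a → ∀ G : FreeF N, Φ G = b →
      qn Φ m (a * b) ≤ nrm (rad N m) F * nrm (rad N m) G := by
    intro F hF G hG
    have : Φ (F * G) = ((a * b : Φ.range) : A) := by rw [map_mul, hF, hG]; rfl
    exact (qn_le Φ m this).trans (nrm_mul _ _ _)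
  have h1 : ∀ F : FreeF N, Φ F = a → qn Φ m (a * b) ≤ nrm (rad N m) F * qn Φ m b := by
    intro F hF
    rcases (nrm_nonneg (rad N m) F).eq_or_lt with h0 | h0
    · obtain ⟨G, hG⟩ := b.2
      have := key F hF G hG
      rw [← h0, zero_mul] at this ⊢
      exact this
    · have : qn Φ m (a * b) / nrm (rad N m) F ≤ qn Φ m b := by
        refine le_qn Φ m fun G hG => ?_
        rw [div_le_iff₀ h0, mul_comm]
        exact key F hF G hG
      rw [div_le_iff₀ h0, mul_comm] at this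
      exact this
  rcases (qn_nonneg Φ m b).eq_or_lt with h0 | h0
  · obtain ⟨F, hF⟩ := a.2
    have := h1 F hF
    rw [← h0, mul_zero] at this ⊢
    exact this
  · have : qn Φ m (a * b) / qn Φ m b ≤ qn Φ m a := by
      refine le_qn Φ m fun F hF => ?_
      rw [div_le_iff₀ h0]
      exact h1 F hF
    rwa [div_le_iff₀ h0] at this

theorem qn_smul_le (m : ℕ) (z : ℂ) (a : Φ.range) : qn Φ m (z • a) ≤ ‖z‖ * qn Φ m a := by
  rcases eq_or_ne z 0 with rfl | hz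
  · have : Φ (0 : FreeF N) = (((0 : ℂ) • a : Φ.range) : A) := by rw [map_zero, zero_smul]; rfl
    have := qn_le Φ m this
    rw [nrm_zero] at this
    simpa using this
  · have hz' : 0 < ‖z‖ := norm_pos_iff.2 hz
    have : qn Φ m (z • a) / ‖z‖ ≤ qn Φ m a := by
      refine le_qn Φ m fun F hF => ?_
      rw [div_le_iff₀ hz', mul_comm, ← nrm_smul]
      refine qn_le Φ m ?_
      rw [map_smul, hF]; rfl
    rw [div_le_iff₀ hz', mul_comm] at this
    exact this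

theorem qn_smul (m : ℕ) (z : ℂ) (a : Φ.range) : qn Φ m (z • a) = ‖z‖ * qn Φ m a := by
  refine le_antisymm (qn_smul_le Φ m z a) ?_
  rcases eq_or_ne z 0 with rfl | hz
  · simpa using qn_nonneg Φ m _
  · have h := qn_smul_le Φ m z⁻¹ (z • a)
    rw [smul_smul, inv_mul_cancel₀ hz, one_smul, norm_inv] at h
    have hz' : 0 < ‖z‖ := norm_pos_iff.2 hz
    calc ‖z‖ * qn Φ m a ≤ ‖z‖ * (‖z‖⁻¹ * qn Φ m (z • a)) := mul_le_mul_of_nonneg_left h hz'.le
      _ = _ := by field_simp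

theorem qn_succ (m : ℕ) (a : Φ.range) : qn Φ m a ≤ qn Φ (m + 1) a := by
  refine le_qn Φ (m + 1) fun F hF => (qn_le Φ m hF).trans (nrm_mono_rad _ _ ?_ F)
  unfold rad
  push_cast
  linarith

end quot

end K1H25.HF
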