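import Pool.Agent.K1H25.HF.Data

/-!
MP_da1489_an: the statement and the interface of the pieces.
-/

namespace K1H25.HF

open Finset hiding mem_antidiagonal antidiagonal
open HasAntidiagonal WAlg

/-- A complex algebra with a topology is holomorphically finitely generated if it is topologically isomorphic to
the quotient of some `F(C^N)` by a closed two-sided ideal. -/
def HFG (A : Type) [Ring A] [Algebra ℂ A] [TopologicalSpace A] : Prop :=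
  ∃ (N : ℕ) (J : TwoSidedIdeal (FreeF N)), IsClosed {x : FreeF N | x ∈ J} ∧
    ∃ e : J.ringCon.Quotient ≃ₐ[ℂ] A,
      @IsHomeomorph J.ringCon.Quotient A
        (TopologicalSpace.coinduced (J.ringCon.mk' : FreeF N → J.ringCon.Quotient) inferInstance) inferInstance e

variable {n : ℕ}

/-! ### entropy weights -/

/-- `W(k) = ∏ (k_i/|k|)^{k_i/2}` (with `0^0 = 1`) -/
noncomputable def Wt (k : MI n) : ℝ := ∏ i, ((k i : ℝ) / (tot k : ℝ)) ^ ((k i : ℝ) / 2)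

/-- `κ(j,l) = W(j+l)/(W(j)W(l))` -/
noncomputable def kap (j l : MI n) : ℝ := Wt (j + l) / (Wt j * Wt l)

/-- squared Hellinger distance of the directions of `u` and `v` -/
noncomputable def hell2 (u v : MI n) : ℝ :=
  ∑ i, (Real.sqrt ((u i : ℝ) / (tot u : ℝ)) - Real.sqrt ((v i : ℝ) / (tot v : ℝ))) ^ 2

/-- the net direction of `k` -/
noncomputable def dir (T : ℕ) (k : MI n) : MI n := fun i => ⌊(T : ℝ) * Real.sqrt ((k i : ℝ) / (tot k : ℝ))⌋₊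

/-- the sum of squares -/
def sq (b : MI n) : ℕ := ∑ i, b i ^ 2

/-- the net -/
def Net (n T : ℕ) : Finset (MI n) :=
  (Fintype.piFinset fun _ => Finset.range (T + 1)).filter fun b => (T - n) ^ 2 ≤ sq b ∧ sq b ≤ T ^ 2

/-- the multi-index of degree `M` in direction `b` -/
def lv (M : ℕ) (b : MI n) : MI n := fun i => M * b i ^ 2 / sq b

/-- same colour -/
def SameCol (b b' : MI n) : Prop := ∀ i, b i % (14 * n) = b' i % (14 * n)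

def S_KB : Prop := ∀ (n : ℕ), 1 ≤ n → (∀ k : MI n, 0 < Wt k) ∧ (∀ k : MI n, Wt k ≤ 1) ∧
  (∀ j l : MI n, kap j l ≤ 1) ∧ (∀ k : MI n, 1 ≤ (n : ℝ) ^ tot k * Wt k)

def S_KUP : Prop := ∀ (n : ℕ) (j l : MI n), 0 < tot j → 0 < tot l →
  (∀ i, (l i : ℝ) / (tot l : ℝ) ≤ 4 * ((j i : ℝ) / (tot j : ℝ))) →
  Real.exp (-(9 / 2) * (tot l : ℝ) * hell2 l j) ≤ kap j l

def S_KLO : Prop := ∀ (n : ℕ) (j l : MI n), 0 < tot l →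
  kap j l ≤ Real.exp (-(1 / 2) * (tot l : ℝ) * hell2 l (j + l))

def S_LV : Prop := ∀ (n T M : ℕ) (b : MI n), 1 ≤ n → 4 * n ≤ T → (T ^ 2).factorial ∣ M → b ∈ Net n T →
  tot (lv M b) = M ∧ ∀ i, lv M b i * sq b = M * b i ^ 2

def S_NETK : Prop := ∀ (n T M : ℕ) (k : MI n), 1 ≤ n → 4 * n ≤ T → (T ^ 2).factorial ∣ M → 0 < M →
  4 * M * T ^ 2 ≤ tot k →
  dir T k ∈ Net n T ∧ (∀ i, lv M (dir T k) i ≤ k i) ∧
  Real.exp (-41 * (n : ℝ) ^ 2 * (M : ℝ) / (T : ℝ) ^ 2) ≤ kap (k - lv M (dir T k)) (lv M (dir T k)) ∧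
  ∀ b' ∈ Net n T, SameCol b' (dir T k) → b' ≠ dir T k →
    kap (k - lv M (dir T k)) (lv M b')
      ≤ Real.exp (-(M : ℝ) / (T : ℝ) ^ 2) * kap (k - lv M (dir T k)) (lv M (dir T k))

open Classical in
def S_DECAY : Prop :=
  ∀ (n T M : ℕ) (γ U Q : ℝ) (X : MI n → ℝ),
    1 ≤ n → 4 * n ≤ T → 0 < γ → 656 * (n : ℝ) ^ 2 ≤ γ * (T : ℝ) ^ 2 → (T ^ 2).factorial ∣ M → 0 < M →
    ((T : ℝ) + 1) ^ n * Real.exp (-(M : ℝ) / (T : ℝ) ^ 2) ≤ 1 / 8 → 8 / 7 ≤ Real.exp (γ * M / 16) →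
    1 ≤ Q → (∀ k, 0 ≤ X k) → (∀ k, X k ≤ Q ^ tot k) → 0 ≤ U → U ≤ Real.exp (-(7 / 8) * γ * M) →
    (∀ j : MI n, ∀ b ∈ Net n T, kap j (lv M b) * X (j + lv M b) ≤ X j * U +
      ∑ b' ∈ (Net n T).filter (fun b' => SameCol b' b ∧ b' ≠ b), kap j (lv M b') * X (j + lv M b')) →
    ∀ k, X k ≤ (Q * Real.exp γ) ^ (4 * M * T ^ 2) * Real.exp (-(3 / 4) * γ * tot k)

/-- comparison of the two weights -/
def S_WW : Prop := ∀ (n : ℕ) (k : MI n), Wt k ≤ wq k ∧ wq k ≤ (3 * ((tot k : ℝ) + 1)) ^ n * Wt k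

/-! ### functional analysis -/

def S_COMPL : Prop := ∀ (Γ : Type) [AddMonoid Γ] [HasAntidiagonal Γ] (D : WData Γ) (a : ℕ → WAlg D),
  (∀ i, Summable fun j => nrm i (a j)) →
  ∃ s : WAlg D, ∀ (i : D.I) (J : ℕ), nrm i (s - ∑ j ∈ Finset.range J, a j) ≤ ∑' j, nrm i (a (j + J))

def S_EVAL : Prop := ∀ (Γ : Type) [AddMonoid Γ] [HasAntidiagonal Γ] (D : WData Γ) (N : ℕ), Nonempty D.I →
  ∃ Φ : (Fin N → WAlg D) → (FreeF N →ₐ[ℂ] WAlg D),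
    (∀ f s, Φ f (mono (freeData N) (FreeAddMonoid.of s)) = f s) ∧
    (∀ f (i : D.I) (Q : ℝ) (hQ : 0 < Q), (∀ s, nrm i (f s) ≤ Q) → ∀ F : FreeF N,
      nrm i (Φ f F) ≤ nrm (D := freeData N) ⟨Q, hQ⟩ F) ∧
    (∀ f g (i : D.I) (Q δ : ℝ) (hQ : 1 ≤ Q), 0 ≤ δ → (∀ s, nrm i (f s) ≤ Q) → (∀ s, nrm i (g s) ≤ Q) →
      (∀ s, nrm i (f s - g s) ≤ δ) → ∀ F : FreeF N,
      nrm i (Φ f F - Φ g F) ≤ δ * nrm (D := freeData N) ⟨2 * Q, by linarith⟩ F)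

/-- continuity estimate -/
def ContEst {n N : ℕ} {q : ℂ} {hq : ‖q‖ = 1} {r : ℝ} (Φ : FreeF N →ₐ[ℂ] QBall n q hq r) : Prop :=
  ∀ ρ : (ballData n q hq r).I, ∃ (R : (freeData N).I) (C : ℝ), 0 ≤ C ∧ ∀ F, nrm ρ (Φ F) ≤ C * nrm R F

/-- nearly open on monomials -/
def NearOpen {n N : ℕ} {q : ℂ} {hq : ‖q‖ = 1} {r : ℝ} (Φ : FreeF N →ₐ[ℂ] QBall n q hq r) : Prop :=
  ∀ R : (freeData N).I, ∃ (ρ : (ballData n q hq r).I) (C : ℝ), 0 ≤ C ∧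
    ∀ (k : MI n) (ρ' : (ballData n q hq r).I) (δ : ℝ), 0 < δ →
      ∃ F : FreeF N, nrm R F ≤ C * nrm ρ (mono (ballData n q hq r) k) ∧
        nrm ρ' (mono (ballData n q hq r) k - Φ F) ≤ δ

/-- open onto -/
def OpenOnto {n N : ℕ} {q : ℂ} {hq : ‖q‖ = 1} {r : ℝ} (Φ : FreeF N →ₐ[ℂ] QBall n q hq r) : Prop :=
  ∀ R : (freeData N).I, ∃ (ρ : (ballData n q hq r).I) (C : ℝ), 0 ≤ C ∧
    ∀ a : QBall n q hq r, ∃ F : FreeF N, Φ F = a ∧ nrm R F ≤ C * nrm ρ a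

def S_SURJ : Prop := ∀ (n N : ℕ) (q : ℂ) (hq : ‖q‖ = 1) (r : ℝ) (Φ : FreeF N →ₐ[ℂ] QBall n q hq r), 0 < r →
  ContEst Φ → NearOpen Φ → OpenOnto Φ

def S_TOP : Prop := ∀ (n N : ℕ) (q : ℂ) (hq : ‖q‖ = 1) (r : ℝ) (Φ : FreeF N →ₐ[ℂ] QBall n q hq r), 0 < r →
  ContEst Φ → OpenOnto Φ → HFG (QBall n q hq r)

/-! ### levels -/

/-- `γ_j = 4^{-(j+1)}` -/
noncomputable def gam (j : ℕ) : ℝ := (1 / 4) ^ (j + 1)

/-- `T_j = 26 n 2^{j+1}` -/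
def TT (n j : ℕ) : ℕ := 26 * n * 2 ^ (j + 1)

/-- `A_j = exp(γ_j M_j)` -/
noncomputable def Aa (M : ℕ → ℕ) (j : ℕ) : ℝ := Real.exp (gam j * (M j : ℝ))

/-- a priori base -/
noncomputable def Qr (n : ℕ) (r : ℝ) (m : ℕ) : ℝ := ((m : ℝ) + 1) * n * (1 + 1 / r)

/-- the constant of level `m` -/
noncomputable def Cc (n : ℕ) (r : ℝ) (M : ℕ → ℕ) (m : ℕ) : ℝ :=
  (Qr n r m * Real.exp (gam m)) ^ (4 * M m * (TT n m) ^ 2)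

/-- what a new level needs -/
def GoodM (n T : ℕ) (γ : ℝ) (M : ℕ) (B : ℝ) : Prop :=
  (T ^ 2).factorial ∣ M ∧ 0 < M ∧ ((T : ℝ) + 1) ^ n * Real.exp (-(M : ℝ) / (T : ℝ) ^ 2) ≤ 1 / 8 ∧
  8 / 7 ≤ Real.exp (γ * M / 16) ∧ B ≤ Real.exp (γ * M / 8) ∧
  ((T : ℝ) + 1) ^ n * (3 * ((M : ℝ) + 1)) ^ n * B * Real.exp (-(γ * M / 2)) ≤ 1

/-- what the bound `B` of a new level must dominate -/
def Hist (n : ℕ) (r : ℝ) (M : ℕ → ℕ) (j : ℕ) (B : ℝ) : Prop :=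
  (j : ℝ) + 2 + ∑ i ∈ Finset.range j, Aa M i * ((TT n i : ℝ) + 1) ^ n * (Qr n r j) ^ (M i) ≤ B ∧
  ∀ m < j, 2 ^ j * Cc n r M m ≤ B

def S_LARGE : Prop := ∀ (n T : ℕ) (γ B : ℝ), 0 < γ → 0 < T → ∃ M, GoodM n T γ M B

open Classical in
/-- `u_{j,c} = ∑ e_{l_b}` over the net points `b` of level `j` and colour `c` -/
noncomputable def uu {A : Type} [Ring A] (e : MI n → A) (M : ℕ → ℕ) (j : ℕ) (c : MI n) : A :=
  ∑ b ∈ (Net n (TT n j)).filter (fun b => ∀ i, b i % (14 * n) = c i), e (lv (M j) b)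

/-- truncated generator -/
noncomputable def ff {A : Type} [Ring A] [Algebra ℂ A] (e : MI n → A) (M : ℕ → ℕ) (J P : ℕ) (c : MI n) : A :=
  ∑ j ∈ (Finset.range (J + 1)).filter (fun j => j % 2 = P), (Aa M j : ℂ) • uu e M j c

def S_CLAIM : Prop :=
  ∀ (n : ℕ) (r : ℝ) (M : ℕ → ℕ) (J : ℕ) (A : Type) [Ring A] [Algebra ℂ A] (e : MI n → A)
    (β : MI n → MI n → ℂ) (p : ℕ → A → ℝ),
    1 ≤ n → 0 < r →
    (∀ j l, ‖β j l‖ = 1) → (∀ j l, e j * e l = (β j l * (kap j l : ℂ)) • e (j + l)) →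
    (∀ m a, 0 ≤ p m a) → (∀ m a b, p m (a + b) ≤ p m a + p m b) → (∀ m a b, p m (a * b) ≤ p m a * p m b) →
    (∀ m (z : ℂ) a, p m (z • a) = ‖z‖ * p m a) → (∀ m a, p m a ≤ p (m + 1) a) →
    (∀ m k, p m (e k) ≤ (Qr n r m) ^ tot k) →
    (∀ m, ∀ P < 2, ∀ c : MI n, (∀ i, c i < 14 * n) → p m (ff e M J P c) ≤ (m : ℝ) + 1) →
    (∀ j ≤ J, ∃ B, Hist n r M j B ∧ GoodM n (TT n j) (gam j) (M j) B) →
    ∀ m ≤ J, ∀ k, p m (e k) ≤ Cc n r M m * Real.exp (-(3 / 4) * gam m * tot k)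

/-- the normalised monomials -/
noncomputable def ek (n : ℕ) (q : ℂ) (hq : ‖q‖ = 1) (r : ℝ) (k : MI n) : QBall n q hq r :=
  (((Wt k * r ^ tot k)⁻¹ : ℝ) : ℂ) • mono (ballData n q hq r) k

def S_MAIN : Prop := ∀ (n : ℕ) (q : ℂ) (hq : ‖q‖ = 1) (r : ℝ), 1 ≤ n → 0 < r →
  ∃ (N : ℕ) (Φ : FreeF N →ₐ[ℂ] QBall n q hq r), ContEst Φ ∧ NearOpen Φ

theorem assemble (h1 : S_MAIN) (h2 : S_SURJ) (h3 : S_TOP) (n : ℕ) (hn : 1 ≤ n) (q : ℂ) (hq : ‖q‖ = 1) (r : ℝ)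
    (hr : 0 < r) : HFG (QBall n q hq r) := by
  obtain ⟨N, Φ, hc, ho⟩ := h1 n q hq r hn hr
  exact h3 n N q hq r Φ hr hc (h2 n N q hq r Φ hr hc ho)

end K1H25.HF
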